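import Mathlib

set_option autoImplicit false

/-!
The radial chain on `ℕ × ℕ` and its barrier.
-/

namespace Pool.Agent.Helper23.LQ

/-- the type of level `n` -/
def tA (p : Bool) (n : ℕ) : Bool := (decide (Nat.log 8 n % 2 = 0)) == p

lemma tA_not (p : Bool) (n : ℕ) : tA (!p) n = !(tA p n) := by
  unfold tA
  cases p <;> cases (decide (Nat.log 8 n % 2 = 0)) <;> rfl

/-- relative position in a rooted tree: the same, child, parent, grandchild, grandparent -/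
inductive Mv
  | z
  | c
  | p
  | g
  | q
  deriving DecidableEq

open Mv

/-- effect on the distance to the root -/
def sh : Mv → ℕ → ℕ
  | z, i => i
  | c, i => i + 1
  | p, i => i - 1
  | g, i => i + 2
  | q, i => i - 2

/-- number of relatives of a vertex at distance `i` from the root -/
def ka : Mv → ℕ → ℕ
  | z, _ => 1
  | c, i => if i = 0 then 100 else 99
  | p, i => if i = 0 then 0 else 1
  | g, i => (if i = 0 then 100 else 99) * 99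
  | q, i => if i ≤ 1 then 0 else 1

/-- the six kinds of edges at level `n` -/
def Es (b : Bool) (n : ℕ) : Fin 6 → Mv × Mv :=
  ![(c, z), (p, z), (z, c), (z, p), if tA b n then (p, g) else (g, p),
    if tA b (n - 1) then (c, q) else (q, c)]

/-- the radial Laplacian (unnormalised) -/
def Lap (b : Bool) (f : ℕ → ℕ → ℝ) (i j : ℕ) : ℝ :=
  ∑ t, (ka (Es b (i + j) t).1 i : ℝ) * (ka (Es b (i + j) t).2 j : ℝ) *
    (f (sh (Es b (i + j) t).1 i) (sh (Es b (i + j) t).2 j) - f i j)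

lemma Lap_eq (b : Bool) (f : ℕ → ℕ → ℝ) (i j : ℕ) : Lap b f i j =
    (ka c i : ℝ) * (f (i + 1) j - f i j) + (ka p i : ℝ) * (f (i - 1) j - f i j) +
    (ka c j : ℝ) * (f i (j + 1) - f i j) + (ka p j : ℝ) * (f i (j - 1) - f i j) +
    (if tA b (i + j) then (ka p i : ℝ) * (ka g j : ℝ) * (f (i - 1) (j + 2) - f i j)
      else (ka g i : ℝ) * (ka p j : ℝ) * (f (i + 2) (j - 1) - f i j)) +
    (if tA b (i + j - 1) then (ka c i : ℝ) * (ka q j : ℝ) * (f (i + 1) (j - 2) - f i j)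
      else (ka q i : ℝ) * (ka c j : ℝ) * (f (i - 2) (j + 1) - f i j)) := by
  have e4 : Es b (i + j) 4 = if tA b (i + j) then (p, g) else (g, p) := rfl
  have e5 : Es b (i + j) 5 = if tA b (i + j - 1) then (c, q) else (q, c) := rfl
  have e0 : Es b (i + j) 0 = (c, z) := rfl
  have e1 : Es b (i + j) 1 = (p, z) := rfl
  have e2 : Es b (i + j) 2 = (z, c) := rfl
  have e3 : Es b (i + j) 3 = (z, p) := rfl
  unfold Lap
  rw [Fin.sum_univ_six, e0, e1, e2, e3, e4, e5]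
  have k0 : ∀ m, (ka z m : ℝ) = 1 := fun m => by simp [ka]
  cases tA b (i + j) <;> cases tA b (i + j - 1) <;> simp only [k0, sh, if_true, if_false,
    Bool.false_eq_true, one_mul, mul_one]

lemma Lap_swap (b : Bool) (f : ℕ → ℕ → ℝ) (i j : ℕ) :
    Lap b (fun i j => f j i) i j = Lap (!b) f j i := by
  rw [Lap_eq, Lap_eq, tA_not, tA_not, Nat.add_comm j i]
  cases tA b (i + j) <;> cases tA b (i + j - 1) <;> simp <;> ring

/-- the barrier -/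
noncomputable def wb (N : ℕ) (i j : ℕ) : ℝ :=
  8 ^ i * 2 ^ j * (1 / 2 ^ (N + 8)) + (1 / 8 - 2 ^ i * 2 ^ j * (32 * (1 / 2 ^ (N + 8)))) +
    (1 / 4) * ((2 / 3) ^ i * (2 / 3) ^ j)

lemma bar_aux (a ρ : ℕ) (ha : 8 ≤ a) (hρ : ρ < a) :
    (100000 : ℝ) * 12 ^ ρ ≤ 2 ^ (8 * a + 8) := by
  have h1 : (12 : ℝ) ^ ρ ≤ 16 ^ a := by
    calc (12 : ℝ) ^ ρ ≤ 16 ^ ρ := pow_le_pow_left₀ (by norm_num) (by norm_num) _
      _ ≤ 16 ^ a := pow_le_pow_right₀ (by norm_num) hρ.le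
  have h2 : (16 : ℝ) ^ a = 2 ^ (4 * a) := by
    rw [pow_mul]; norm_num
  have h3 : (100000 : ℝ) ≤ 2 ^ (4 * a + 8) := by
    calc (100000 : ℝ) ≤ 2 ^ 17 := by norm_num
      _ ≤ 2 ^ (4 * a + 8) := pow_le_pow_right₀ (by norm_num) (by omega)
  calc (100000 : ℝ) * 12 ^ ρ ≤ 2 ^ (4 * a + 8) * 2 ^ (4 * a) := by
        rw [h2] at h1
        exact mul_le_mul h3 h1 (by positivity) (by positivity)
    _ = 2 ^ (8 * a + 8) := by
        rw [← pow_add]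
        congr 1
        ring

/-- smallness of the first part of the barrier on inner shells -/
lemma inner_small (a i j : ℕ) (ha : 8 ≤ a) (h : i + j < a) :
    100000 * ((8 : ℝ) ^ i * 2 ^ j * (1 / 2 ^ (8 * a + 8))) ≤ (2 / 3) ^ i * (2 / 3) ^ j := by
  have h1 := bar_aux a (i + j) ha h
  have h2 : (8 : ℝ) ^ i * 2 ^ j ≤ 8 ^ (i + j) := by
    rw [pow_add]
    gcongr
    norm_num
  have h3 : (12 : ℝ) ^ (i + j) = 8 ^ (i + j) * (3 / 2) ^ (i + j) := by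
    rw [← mul_pow]; norm_num
  have h4 : ((2 : ℝ) / 3) ^ i * (2 / 3) ^ j * (3 / 2) ^ (i + j) = 1 := by
    rw [← pow_add, ← mul_pow]; norm_num
  have hP : (0 : ℝ) < 2 ^ (8 * a + 8) := by positivity
  have hQ : (0 : ℝ) < (3 / 2) ^ (i + j) := by positivity
  have h5 : 100000 * ((8 : ℝ) ^ i * 2 ^ j * (1 / 2 ^ (8 * a + 8))) * (3 / 2) ^ (i + j) ≤ 1 := by
    rw [show 100000 * ((8 : ℝ) ^ i * 2 ^ j * (1 / 2 ^ (8 * a + 8))) * (3 / 2) ^ (i + j) =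
      (100000 * ((8 : ℝ) ^ i * 2 ^ j * (3 / 2) ^ (i + j))) / 2 ^ (8 * a + 8) by ring]
    rw [div_le_one hP]
    refine le_trans ?_ h1
    rw [h3]
    gcongr
  exact le_of_mul_le_mul_right (h5.trans_eq h4.symm) hQ

/-- the three parts of the barrier -/
lemma wb_eq (N i j : ℕ) : wb N i j =
    8 ^ i * 2 ^ j * (1 / 2 ^ (N + 8)) + (1 / 8 - 32 * (2 ^ i * 2 ^ j * (1 / 2 ^ (N + 8)))) +
    (1 / 4) * ((2 / 3) ^ i * (2 / 3) ^ j) := by
  unfold wb; ring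

lemma coef_case (t1 t2 : Bool) (i j : ℕ) (X Y Z : ℝ) (hX : 0 < X) (hY : 0 < Y) (hZ : 0 < Z)
    (h0 : i = 0 → X = Y) (h : 100000 * X ≤ Z ∨ t1 = true) :
    (ka c i : ℝ) * (7 * X - 32 * Y - Z / 12) + (ka p i : ℝ) * (-(7 / 8) * X + 16 * Y + Z / 8) +
    (ka c j : ℝ) * (X - 32 * Y - Z / 12) + (ka p j : ℝ) * (-(1 / 2) * X + 16 * Y + Z / 8) +
    (if t1 then (ka p i : ℝ) * (ka g j : ℝ) * (-(1 / 2) * X - 32 * Y - Z / 12)
      else (ka g i : ℝ) * (ka p j : ℝ) * (31 * X - 32 * Y - Z / 12)) +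
    (if t2 then (ka c i : ℝ) * (ka q j : ℝ) * (X + 16 * Y + Z / 8)
      else (ka q i : ℝ) * (ka c j : ℝ) * (-(31 / 32) * X + 16 * Y + Z / 8)) < 0 := by
  have hi : i = 0 ∨ i = 1 ∨ 2 ≤ i := by omega
  have hj : j = 0 ∨ j = 1 ∨ 2 ≤ j := by omega
  have k1 : ∀ m, 2 ≤ m → (ka c m = 99 ∧ ka p m = 1 ∧ ka g m = 9801 ∧ ka q m = 1) := by
    intro m hm
    have e1 : m ≠ 0 := by omega
    have e2 : ¬ m ≤ 1 := by omega
    simp [ka, e1, e2]
  have k2 : ka c 0 = 100 ∧ ka p 0 = 0 ∧ ka g 0 = 9900 ∧ ka q 0 = 0 := by simp [ka]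
  have k3 : ka c 1 = 99 ∧ ka p 1 = 1 ∧ ka g 1 = 9801 ∧ ka q 1 = 0 := by simp [ka]
  obtain ⟨a1, a2, a3, a4⟩ := k2
  obtain ⟨b1, b2, b3, b4⟩ := k3
  rcases hi with rfl | rfl | hi
  · have hXY := h0 rfl
    rcases hj with rfl | rfl | hj
    · rw [a1, a2, a3, a4]
      cases t1 <;> cases t2 <;> rcases h with h | h <;> simp at h ⊢ <;> linarith
    · rw [a1, a2, a3, a4, b1, b2, b3, b4]
      cases t1 <;> cases t2 <;> rcases h with h | h <;> simp at h ⊢ <;> linarith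
    · obtain ⟨c1, c2, c3, c4⟩ := k1 j hj
      rw [a1, a2, a3, a4, c1, c2, c3, c4]
      cases t1 <;> cases t2 <;> rcases h with h | h <;> simp at h ⊢ <;> linarith
  · rcases hj with rfl | rfl | hj
    · rw [a1, a2, a3, a4, b1, b2, b3, b4]
      cases t1 <;> cases t2 <;> rcases h with h | h <;> simp at h ⊢ <;> linarith
    · rw [b1, b2, b3, b4]
      cases t1 <;> cases t2 <;> rcases h with h | h <;> simp at h ⊢ <;> linarith
    · obtain ⟨c1, c2, c3, c4⟩ := k1 j hj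
      rw [b1, b2, b3, b4, c1, c2, c3, c4]
      cases t1 <;> cases t2 <;> rcases h with h | h <;> simp at h ⊢ <;> linarith
  · obtain ⟨d1, d2, d3, d4⟩ := k1 i hi
    rcases hj with rfl | rfl | hj
    · rw [d1, d2, d3, d4, a1, a2, a3, a4]
      cases t1 <;> cases t2 <;> rcases h with h | h <;> simp at h ⊢ <;> linarith
    · rw [d1, d2, d3, d4, b1, b2, b3, b4]
      cases t1 <;> cases t2 <;> rcases h with h | h <;> simp at h ⊢ <;> linarith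
    · obtain ⟨c1, c2, c3, c4⟩ := k1 j hj
      rw [d1, d2, d3, d4, c1, c2, c3, c4]
      cases t1 <;> cases t2 <;> rcases h with h | h <;> simp at h ⊢ <;> linarith

/-- the barrier is strictly superharmonic -/
theorem barrier (b : Bool) (a : ℕ) (ha : 8 ≤ a) (hA : ∀ n, a ≤ n → n < 8 * a → tA b n = true)
    (i j : ℕ) (hij : i + j < 8 * a) : Lap b (wb (8 * a)) i j < 0 := by
  have hX : (0 : ℝ) < 8 ^ i * 2 ^ j * (1 / 2 ^ (8 * a + 8)) := by positivity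
  have hY : (0 : ℝ) < 2 ^ i * 2 ^ j * (1 / 2 ^ (8 * a + 8)) := by positivity
  have hZ : (0 : ℝ) < (2 / 3) ^ i * (2 / 3) ^ j := by positivity
  have h0 : i = 0 → (8 : ℝ) ^ i * 2 ^ j * (1 / 2 ^ (8 * a + 8)) =
      2 ^ i * 2 ^ j * (1 / 2 ^ (8 * a + 8)) := by
    rintro rfl; simp
  have hor : 100000 * ((8 : ℝ) ^ i * 2 ^ j * (1 / 2 ^ (8 * a + 8))) ≤
      (2 / 3) ^ i * (2 / 3) ^ j ∨ tA b (i + j) = true := by
    by_cases hρ : i + j < a
    · exact Or.inl (inner_small a i j ha hρ)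
    · exact Or.inr (hA _ (by omega) hij)
  have key := coef_case (tA b (i + j)) (tA b (i + j - 1)) i j _ _ _ hX hY hZ h0 hor
  rw [Lap_eq]
  have p0 : ka p 0 = 0 := by simp [ka]
  have q0 : ka q 0 = 0 := by simp [ka]
  have q1 : ka q 1 = 0 := by simp [ka]
  refine lt_of_eq_of_lt ?_ key
  clear key hor
  have d1 : wb (8 * a) (i + 1) j - wb (8 * a) i j =
      7 * (8 ^ i * 2 ^ j * (1 / 2 ^ (8 * a + 8))) - 32 * (2 ^ i * 2 ^ j * (1 / 2 ^ (8 * a + 8))) -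
      ((2 / 3) ^ i * (2 / 3) ^ j) / 12 := by
    rw [wb_eq, wb_eq, pow_succ, pow_succ, pow_succ]; ring
  have d3 : wb (8 * a) i (j + 1) - wb (8 * a) i j =
      (8 ^ i * 2 ^ j * (1 / 2 ^ (8 * a + 8))) - 32 * (2 ^ i * 2 ^ j * (1 / 2 ^ (8 * a + 8))) -
      ((2 / 3) ^ i * (2 / 3) ^ j) / 12 := by
    rw [wb_eq, wb_eq, pow_succ, pow_succ]; ring
  have d2 : (ka p i : ℝ) * (wb (8 * a) (i - 1) j - wb (8 * a) i j) = (ka p i : ℝ) *
      (-(7 / 8) * (8 ^ i * 2 ^ j * (1 / 2 ^ (8 * a + 8))) +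
      16 * (2 ^ i * 2 ^ j * (1 / 2 ^ (8 * a + 8))) + ((2 / 3) ^ i * (2 / 3) ^ j) / 8) := by
    rcases i with _ | i
    · rw [p0]; simp
    · rw [wb_eq, wb_eq, Nat.add_sub_cancel, pow_succ, pow_succ, pow_succ]; ring
  have d4 : (ka p j : ℝ) * (wb (8 * a) i (j - 1) - wb (8 * a) i j) = (ka p j : ℝ) *
      (-(1 / 2) * (8 ^ i * 2 ^ j * (1 / 2 ^ (8 * a + 8))) +
      16 * (2 ^ i * 2 ^ j * (1 / 2 ^ (8 * a + 8))) + ((2 / 3) ^ i * (2 / 3) ^ j) / 8) := by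
    rcases j with _ | j
    · rw [p0]; simp
    · rw [wb_eq, wb_eq, Nat.add_sub_cancel, pow_succ, pow_succ]; ring
  have d5 : (ka p i : ℝ) * (ka g j : ℝ) * (wb (8 * a) (i - 1) (j + 2) - wb (8 * a) i j) =
      (ka p i : ℝ) * (ka g j : ℝ) * (-(1 / 2) * (8 ^ i * 2 ^ j * (1 / 2 ^ (8 * a + 8))) -
      32 * (2 ^ i * 2 ^ j * (1 / 2 ^ (8 * a + 8))) - ((2 / 3) ^ i * (2 / 3) ^ j) / 12) := by
    rcases i with _ | i
    · rw [p0]; simp
    · rw [wb_eq, wb_eq, Nat.add_sub_cancel]; ring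
  have d6 : (ka g i : ℝ) * (ka p j : ℝ) * (wb (8 * a) (i + 2) (j - 1) - wb (8 * a) i j) =
      (ka g i : ℝ) * (ka p j : ℝ) * (31 * (8 ^ i * 2 ^ j * (1 / 2 ^ (8 * a + 8))) -
      32 * (2 ^ i * 2 ^ j * (1 / 2 ^ (8 * a + 8))) - ((2 / 3) ^ i * (2 / 3) ^ j) / 12) := by
    rcases j with _ | j
    · rw [p0]; simp
    · rw [wb_eq, wb_eq, Nat.add_sub_cancel]; ring
  have d7 : (ka c i : ℝ) * (ka q j : ℝ) * (wb (8 * a) (i + 1) (j - 2) - wb (8 * a) i j) =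
      (ka c i : ℝ) * (ka q j : ℝ) * ((8 ^ i * 2 ^ j * (1 / 2 ^ (8 * a + 8))) +
      16 * (2 ^ i * 2 ^ j * (1 / 2 ^ (8 * a + 8))) + ((2 / 3) ^ i * (2 / 3) ^ j) / 8) := by
    rcases j with _ | _ | j
    · rw [q0]; simp
    · rw [q1]; simp
    · rw [wb_eq, wb_eq, show j + 1 + 1 - 2 = j by omega]; ring
  have d8 : (ka q i : ℝ) * (ka c j : ℝ) * (wb (8 * a) (i - 2) (j + 1) - wb (8 * a) i j) =
      (ka q i : ℝ) * (ka c j : ℝ) * (-(31 / 32) * (8 ^ i * 2 ^ j * (1 / 2 ^ (8 * a + 8))) +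
      16 * (2 ^ i * 2 ^ j * (1 / 2 ^ (8 * a + 8))) + ((2 / 3) ^ i * (2 / 3) ^ j) / 8) := by
    rcases i with _ | _ | i
    · rw [q0]; simp
    · rw [q1]; simp
    · rw [wb_eq, wb_eq, show i + 1 + 1 - 2 = i by omega]; ring
  rw [d1, d2, d3, d4, d5, d6, d7, d8]

end Pool.Agent.Helper23.LQ
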