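import Mathlib
import Pool.Agent.Helper23.LQ.Rad

set_option autoImplicit false

/-!
Uniform domination for nonnegative superharmonic functions of the radial chain.
-/

namespace Pool.Agent.Helper23.LQ

open Mv

/-- degree bound -/
abbrev DD : ℝ := 10202

lemma Lap_sub (b : Bool) (f h : ℕ → ℕ → ℝ) (i j : ℕ) :
    Lap b (fun i j => f i j - h i j) i j = Lap b f i j - Lap b h i j := by
  unfold Lap
  rw [← Finset.sum_sub_distrib]
  refine Finset.sum_congr rfl fun t _ => ?_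
  ring

lemma Lap_aff (b : Bool) (ε : ℝ) (w : ℕ → ℕ → ℝ) (i j : ℕ) :
    Lap b (fun i j => ε * (1 - w i j)) i j = -(ε * Lap b w i j) := by
  unfold Lap
  rw [Finset.mul_sum, ← Finset.sum_neg_distrib]
  refine Finset.sum_congr rfl fun t _ => ?_
  ring

lemma min_principle (b : Bool) (N : ℕ) (f φ : ℕ → ℕ → ℝ) (hf : ∀ i j, Lap b f i j ≤ 0)
    (hφ : ∀ i j, i + j < N → 0 < Lap b φ i j) (hbd : ∀ i j, i + j = N → φ i j ≤ f i j) :
    ∀ i j, i + j ≤ N → φ i j ≤ f i j := by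
  classical
  set s : Finset (ℕ × ℕ) := (Finset.range (N + 1) ×ˢ Finset.range (N + 1)).filter
    (fun x => x.1 + x.2 ≤ N) with hs
  have hmem : ∀ i j, i + j ≤ N → (i, j) ∈ s := by
    intro i j h
    rw [hs, Finset.mem_filter, Finset.mem_product, Finset.mem_range, Finset.mem_range]
    refine ⟨⟨?_, ?_⟩, h⟩ <;> simp only <;> omega
  set u : ℕ → ℕ → ℝ := fun i j => f i j - φ i j with hu
  obtain ⟨⟨i0, j0⟩, h1, h2⟩ := Finset.exists_min_image s (fun x => u x.1 x.2) ⟨(0, 0), hmem 0 0 (by omega)⟩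
  have h3 : i0 + j0 ≤ N := (Finset.mem_filter.mp h1).2
  have hmin : ∀ i j, i + j ≤ N → u i0 j0 ≤ u i j := fun i j h => h2 (i, j) (hmem i j h)
  by_contra hcon
  push Not at hcon
  obtain ⟨i, j, hij, hlt⟩ := hcon
  have hneg : u i0 j0 < 0 := (hmin i j hij).trans_lt (by simp only [hu]; linarith)
  have hlt : i0 + j0 < N := by
    rcases h3.lt_or_eq with h | h
    · exact h
    · have := hbd i0 j0 h
      simp only [hu] at hneg
      linarith
  have h4 : Lap b u i0 j0 < 0 := by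
    rw [hu, Lap_sub]
    have := hf i0 j0
    have := hφ i0 j0 hlt
    linarith
  have h5 : 0 ≤ Lap b u i0 j0 := by
    rw [Lap_eq]
    have p0 : ka p 0 = 0 := by simp [ka]
    have n1 : 0 ≤ (ka c i0 : ℝ) * (u (i0 + 1) j0 - u i0 j0) :=
      mul_nonneg (Nat.cast_nonneg _) (sub_nonneg.mpr (hmin _ _ (by omega)))
    have n2 : 0 ≤ (ka p i0 : ℝ) * (u (i0 - 1) j0 - u i0 j0) :=
      mul_nonneg (Nat.cast_nonneg _) (sub_nonneg.mpr (hmin _ _ (by omega)))
    have n3 : 0 ≤ (ka c j0 : ℝ) * (u i0 (j0 + 1) - u i0 j0) :=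
      mul_nonneg (Nat.cast_nonneg _) (sub_nonneg.mpr (hmin _ _ (by omega)))
    have n4 : 0 ≤ (ka p j0 : ℝ) * (u i0 (j0 - 1) - u i0 j0) :=
      mul_nonneg (Nat.cast_nonneg _) (sub_nonneg.mpr (hmin _ _ (by omega)))
    have n5 : 0 ≤ (ka p i0 : ℝ) * (ka g j0 : ℝ) * (u (i0 - 1) (j0 + 2) - u i0 j0) := by
      rcases i0 with _ | i0
      · rw [p0]; simp
      · exact mul_nonneg (by positivity) (sub_nonneg.mpr (hmin _ _ (by omega)))
    have n6 : 0 ≤ (ka g i0 : ℝ) * (ka p j0 : ℝ) * (u (i0 + 2) (j0 - 1) - u i0 j0) := by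
      rcases j0 with _ | j0
      · rw [p0]; simp
      · exact mul_nonneg (by positivity) (sub_nonneg.mpr (hmin _ _ (by omega)))
    have n7 : 0 ≤ (ka c i0 : ℝ) * (ka q j0 : ℝ) * (u (i0 + 1) (j0 - 2) - u i0 j0) :=
      mul_nonneg (by positivity) (sub_nonneg.mpr (hmin _ _ (by omega)))
    have n8 : 0 ≤ (ka q i0 : ℝ) * (ka c j0 : ℝ) * (u (i0 - 2) (j0 + 1) - u i0 j0) :=
      mul_nonneg (by positivity) (sub_nonneg.mpr (hmin _ _ (by omega)))
    split_ifs <;> linarith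
  linarith

lemma ka_le (i : ℕ) : (ka c i : ℝ) ≤ 100 ∧ (99 : ℝ) ≤ ka c i ∧ (ka p i : ℝ) ≤ 1 ∧
    (ka g i : ℝ) ≤ 9900 ∧ (ka q i : ℝ) ≤ 1 := by
  refine ⟨?_, ?_, ?_, ?_, ?_⟩ <;> simp only [ka] <;> split_ifs <;> norm_num

/-- total degree times the value dominates the sum over neighbours -/
lemma sum_le (b : Bool) (f : ℕ → ℕ → ℝ) (h0 : ∀ i j, 0 ≤ f i j) (i j : ℕ)
    (h : Lap b f i j ≤ 0) :
    (ka c i : ℝ) * f (i + 1) j + (ka p i : ℝ) * f (i - 1) j + (ka c j : ℝ) * f i (j + 1)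
      ≤ DD * f i j := by
  rw [Lap_eq] at h
  obtain ⟨a1, a2, a3, a4, a5⟩ := ka_le i
  obtain ⟨b1, b2, b3, b4, b5⟩ := ka_le j
  have hf := h0 i j
  have e1 : (ka c i : ℝ) * f i j ≤ 100 * f i j := mul_le_mul_of_nonneg_right a1 hf
  have e2 : (ka p i : ℝ) * f i j ≤ 1 * f i j := mul_le_mul_of_nonneg_right a3 hf
  have e3 : (ka c j : ℝ) * f i j ≤ 100 * f i j := mul_le_mul_of_nonneg_right b1 hf
  have e4 : (ka p j : ℝ) * f i j ≤ 1 * f i j := mul_le_mul_of_nonneg_right b3 hf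
  have n4 : 0 ≤ (ka p j : ℝ) * f i (j - 1) := mul_nonneg (Nat.cast_nonneg _) (h0 _ _)
  have e5 : (ka p i : ℝ) * (ka g j : ℝ) * f i j ≤ 9900 * f i j := by
    refine mul_le_mul_of_nonneg_right ?_ hf
    calc (ka p i : ℝ) * (ka g j : ℝ) ≤ 1 * 9900 :=
          mul_le_mul a3 b4 (Nat.cast_nonneg _) (by norm_num)
      _ = 9900 := by norm_num
  have n5 : 0 ≤ (ka p i : ℝ) * (ka g j : ℝ) * f (i - 1) (j + 2) :=
    mul_nonneg (by positivity) (h0 _ _)
  have e6 : (ka g i : ℝ) * (ka p j : ℝ) * f i j ≤ 9900 * f i j := by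
    refine mul_le_mul_of_nonneg_right ?_ hf
    calc (ka g i : ℝ) * (ka p j : ℝ) ≤ 9900 * 1 :=
          mul_le_mul a4 b3 (Nat.cast_nonneg _) (by norm_num)
      _ = 9900 := by norm_num
  have n6 : 0 ≤ (ka g i : ℝ) * (ka p j : ℝ) * f (i + 2) (j - 1) :=
    mul_nonneg (by positivity) (h0 _ _)
  have e7 : (ka c i : ℝ) * (ka q j : ℝ) * f i j ≤ 100 * f i j := by
    refine mul_le_mul_of_nonneg_right ?_ hf
    calc (ka c i : ℝ) * (ka q j : ℝ) ≤ 100 * 1 :=
          mul_le_mul a1 b5 (Nat.cast_nonneg _) (by norm_num)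
      _ = 100 := by norm_num
  have n7 : 0 ≤ (ka c i : ℝ) * (ka q j : ℝ) * f (i + 1) (j - 2) :=
    mul_nonneg (by positivity) (h0 _ _)
  have e8 : (ka q i : ℝ) * (ka c j : ℝ) * f i j ≤ 100 * f i j := by
    refine mul_le_mul_of_nonneg_right ?_ hf
    calc (ka q i : ℝ) * (ka c j : ℝ) ≤ 1 * 100 :=
          mul_le_mul a5 b1 (Nat.cast_nonneg _) (by norm_num)
      _ = 100 := by norm_num
  have n8 : 0 ≤ (ka q i : ℝ) * (ka c j : ℝ) * f (i - 2) (j + 1) :=
    mul_nonneg (by positivity) (h0 _ _)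
  unfold DD
  split_ifs at h <;> linarith

lemma harnack_left (b : Bool) (f : ℕ → ℕ → ℝ) (h0 : ∀ i j, 0 ≤ f i j) (i j : ℕ)
    (h : Lap b f (i + 1) j ≤ 0) : f i j ≤ DD * f (i + 1) j := by
  have h1 := sum_le b f h0 (i + 1) j h
  have h2 : (ka p (i + 1) : ℝ) = 1 := by simp [ka]
  rw [h2, Nat.add_sub_cancel, one_mul] at h1
  have h3 : 0 ≤ (ka c (i + 1) : ℝ) * f (i + 1 + 1) j := mul_nonneg (Nat.cast_nonneg _) (h0 _ _)
  have h4 : 0 ≤ (ka c j : ℝ) * f (i + 1) (j + 1) := mul_nonneg (Nat.cast_nonneg _) (h0 _ _)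
  linarith

lemma harnack_up (b : Bool) (f : ℕ → ℕ → ℝ) (h0 : ∀ i j, 0 ≤ f i j) (i j : ℕ)
    (h : Lap b f i j ≤ 0) : f i (j + 1) ≤ DD * f i j := by
  have h1 := sum_le b f h0 i j h
  have h3 : 0 ≤ (ka c i : ℝ) * f (i + 1) j := mul_nonneg (Nat.cast_nonneg _) (h0 _ _)
  have h4 : 0 ≤ (ka p i : ℝ) * f (i - 1) j := mul_nonneg (Nat.cast_nonneg _) (h0 _ _)
  have h5 : f i (j + 1) ≤ (ka c j : ℝ) * f i (j + 1) := by
    have := (ka_le j).2.1
    have := h0 i (j + 1)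
    nlinarith
  linarith

lemma harnack (b : Bool) (f : ℕ → ℕ → ℝ) (h0 : ∀ i j, 0 ≤ f i j)
    (h : ∀ i j, Lap b f i j ≤ 0) : ∀ i j, f 0 (i + j) ≤ DD ^ (2 * i) * f i j := by
  intro i
  induction i with
  | zero => intro j; simp
  | succ i ih =>
    intro j
    have h1 := ih (j + 1)
    have h2 := harnack_up b f h0 i j (h _ _)
    have h3 := harnack_left b f h0 i j (h _ _)
    have h4 : f i (j + 1) ≤ DD * (DD * f (i + 1) j) :=
      h2.trans (mul_le_mul_of_nonneg_left h3 (by norm_num [DD]))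
    rw [show i + 1 + j = i + (j + 1) by ring]
    calc f 0 (i + (j + 1)) ≤ DD ^ (2 * i) * f i (j + 1) := h1
      _ ≤ DD ^ (2 * i) * (DD * (DD * f (i + 1) j)) :=
          mul_le_mul_of_nonneg_left h4 (by unfold DD; positivity)
      _ = DD ^ (2 * (i + 1)) * f (i + 1) j := by
          rw [show 2 * (i + 1) = 2 * i + 1 + 1 by ring, pow_succ, pow_succ]
          ring

/-- a nonnegative superharmonic function of the radial chain is bounded below by its value at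
the end of an appropriate shell -/
theorem radial (b : Bool) (a : ℕ) (ha : 8 ≤ a) (hA : ∀ n, a ≤ n → n < 8 * a → tA b n = true)
    (f : ℕ → ℕ → ℝ) (h0 : ∀ i j, 0 ≤ f i j) (h : ∀ i j, Lap b f i j ≤ 0) (i j : ℕ)
    (hij : 3 * i + j ≤ 8 * a) : f 0 (8 * a) ≤ 2 * DD ^ 6 * f i j := by
  have hD : (0 : ℝ) < DD ^ 6 := by unfold DD; positivity
  rcases (h0 0 (8 * a)).eq_or_lt with hz | hpos
  · rw [← hz]
    exact mul_nonneg (by positivity) (h0 _ _)
  set ε : ℝ := f 0 (8 * a) / DD ^ 6 with hε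
  have hε0 : 0 < ε := by positivity
  have hnn : ∀ i j, i + j ≤ 8 * a → 0 ≤ 1 / 8 - 32 * ((2 : ℝ) ^ i * 2 ^ j * (1 / 2 ^ (8 * a + 8))) := by
    intro i j hij
    rw [← pow_add, pow_add 2 (8 * a) 8]
    have h1 : (2 : ℝ) ^ (i + j) ≤ 2 ^ (8 * a) := pow_le_pow_right₀ (by norm_num) hij
    have h2 : (0 : ℝ) < 2 ^ (8 * a) := by positivity
    have h3 : 32 * ((2 : ℝ) ^ (i + j) * (1 / (2 ^ (8 * a) * 2 ^ 8))) =
        (1 / 8) * ((2 : ℝ) ^ (i + j) / 2 ^ (8 * a)) := by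
      field_simp
      norm_num
    rw [h3]
    have h4 : (2 : ℝ) ^ (i + j) / 2 ^ (8 * a) ≤ 1 := (div_le_one h2).mpr h1
    linarith
  have key := min_principle b (8 * a) f (fun i j => ε * (1 - wb (8 * a) i j)) h
    (by
      intro i j hlt
      rw [Lap_aff]
      have := barrier b a ha hA i j hlt
      nlinarith)
    (by
      intro i j heq
      show ε * (1 - wb (8 * a) i j) ≤ f i j
      by_cases hi : i ≤ 3
      · have h1 := harnack b f h0 h i j
        rw [heq] at h1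
        have h2 : f 0 (8 * a) ≤ DD ^ 6 * f i j := by
          refine h1.trans (mul_le_mul_of_nonneg_right ?_ (h0 _ _))
          exact pow_le_pow_right₀ (by norm_num [DD]) (by omega)
        have h3 : ε ≤ f i j := by
          rw [hε, div_le_iff₀ hD]
          linarith
        have h4 : 0 ≤ wb (8 * a) i j := by
          rw [wb_eq]
          have h5 := hnn i j heq.le
          have h6 : (0 : ℝ) ≤ 8 ^ i * 2 ^ j * (1 / 2 ^ (8 * a + 8)) := by positivity
          have h7 : (0 : ℝ) ≤ (1 / 4) * ((2 / 3) ^ i * (2 / 3) ^ j) := by positivity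
          linarith
        nlinarith
      · have h4 : 1 ≤ wb (8 * a) i j := by
          rw [wb_eq]
          have h5 := hnn i j heq.le
          have h7 : (0 : ℝ) ≤ (1 / 4) * ((2 / 3) ^ i * (2 / 3) ^ j) := by positivity
          have h6 : (1 : ℝ) ≤ 8 ^ i * 2 ^ j * (1 / 2 ^ (8 * a + 8)) := by
            have e1 : (8 : ℝ) ^ i * 2 ^ j = 4 ^ i * 2 ^ (8 * a) := by
              rw [← heq, pow_add, ← mul_assoc, ← mul_pow]
              norm_num
            rw [e1, pow_add]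
            have e2 : (256 : ℝ) ≤ 4 ^ i := by
              calc (256 : ℝ) = 4 ^ 4 := by norm_num
                _ ≤ 4 ^ i := pow_le_pow_right₀ (by norm_num) (by omega)
            have e3 : (4 : ℝ) ^ i * 2 ^ (8 * a) * (1 / (2 ^ (8 * a) * 2 ^ 8)) = 4 ^ i / 256 := by
              field_simp
              norm_num
            rw [e3]
            linarith
          linarith
        have := h0 i j
        nlinarith)
  have h1 := key i j (by omega)
  have h2 : wb (8 * a) i j ≤ 1 / 2 := by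
    rw [wb_eq]
    have e1 : (8 : ℝ) ^ i * 2 ^ j * (1 / 2 ^ (8 * a + 8)) ≤ 1 / 256 := by
      have e2 : (8 : ℝ) ^ i * 2 ^ j = 2 ^ (3 * i + j) := by
        rw [pow_add, pow_mul]; norm_num
      rw [e2, pow_add 2 (8 * a) 8]
      have e3 : (2 : ℝ) ^ (3 * i + j) ≤ 2 ^ (8 * a) := pow_le_pow_right₀ (by norm_num) hij
      have e4 : (0 : ℝ) < 2 ^ (8 * a) := by positivity
      rw [mul_one_div, div_le_div_iff₀ (by positivity) (by norm_num)]
      nlinarith
    have e5 : (0 : ℝ) ≤ 2 ^ i * 2 ^ j * (1 / 2 ^ (8 * a + 8)) := by positivity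
    have e6 : ((2 : ℝ) / 3) ^ i * (2 / 3) ^ j ≤ 1 := by
      rw [← pow_add]
      exact pow_le_one₀ (by norm_num) (by norm_num)
    linarith
  have h3 : ε * (1 / 2) ≤ f i j := by
    refine le_trans ?_ h1
    show ε * (1 / 2) ≤ ε * (1 - wb (8 * a) i j)
    refine mul_le_mul_of_nonneg_left ?_ hε0.le
    linarith
  rw [hε] at h3
  have h4 : f 0 (8 * a) = (f 0 (8 * a) / DD ^ 6 * (1 / 2)) * (2 * DD ^ 6) := by
    field_simp
  rw [h4]
  calc f 0 (8 * a) / DD ^ 6 * (1 / 2) * (2 * DD ^ 6) ≤ f i j * (2 * DD ^ 6) :=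
        mul_le_mul_of_nonneg_right h3 (by positivity)
    _ = _ := by ring

end Pool.Agent.Helper23.LQ
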