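import Mathlib
import Pool.Agent.Helper23.LQ.Rad

set_option autoImplicit false

/-!
The Cayley tree of the free group of rank 50.
-/

namespace Pool.Agent.Helper23.LQ

open Mv

/-- the free group of rank 50 -/
abbrev T : Type := FreeGroup (Fin 50)
/-- letters -/
abbrev Lt : Type := Fin 50 × Bool

/-- left multiplication by a letter -/
def sg (a : Lt) (x : T) : T := FreeGroup.mk [a] * x

/-- the inverse letter -/
def iv (a : Lt) : Lt := (a.1, !a.2)

lemma sg_iv (a : Lt) (x : T) : sg (iv a) (sg a x) = x := by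
  unfold sg iv
  rw [← mul_assoc, FreeGroup.mul_mk]
  have : (FreeGroup.mk ([(a.1, !a.2)] ++ [a]) : T) = 1 := by
    have h := FreeGroup.inv_mk (L := [a])
    have h2 : (FreeGroup.invRev [a] : List Lt) = [(a.1, !a.2)] := by simp [FreeGroup.invRev]
    rw [← FreeGroup.mul_mk, ← h2, ← h]
    group
  rw [this, one_mul]

lemma iv_iv (a : Lt) : iv (iv a) = a := by
  unfold iv; simp

lemma toWord_sg (a : Lt) (x : T) : (sg a x).toWord = match x.toWord with
    | [] => [a]
    | hd :: tl => if a.1 = hd.1 ∧ a.2 = !hd.2 then tl else a :: hd :: tl := by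
  have h1 : sg a x = FreeGroup.mk (a :: x.toWord) := by
    unfold sg
    conv_lhs => rw [← FreeGroup.mk_toWord (x := x)]
    rw [FreeGroup.mul_mk]
    rfl
  rw [h1, FreeGroup.toWord_mk, FreeGroup.reduce.cons, FreeGroup.reduce_toWord]
  cases x.toWord <;> rfl

lemma sg_inj {a a' : Lt} {x : T} (h : sg a x = sg a' x) : a = a' := by
  have h1 : (FreeGroup.mk [a] : T) = FreeGroup.mk [a'] := mul_right_cancel h
  have h2 := congrArg FreeGroup.toWord h1
  rw [FreeGroup.toWord_mk, FreeGroup.toWord_mk] at h2
  simpa using h2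

lemma norm_eq (x : T) : x.norm = x.toWord.length := rfl

lemma norm_sg_nil (a : Lt) (x : T) (h : x.norm = 0) : (sg a x).norm = x.norm + 1 := by
  have h1 : x.toWord = [] := List.length_eq_zero_iff.mp h
  rw [norm_eq (sg a x), toWord_sg, h1, h]
  rfl

lemma norm_sg_cons (a : Lt) (x : T) (hd : Lt) (tl : List Lt) (h : x.toWord = hd :: tl) :
    (a = iv hd ∧ (sg a x).norm + 1 = x.norm) ∨ (a ≠ iv hd ∧ (sg a x).norm = x.norm + 1) := by
  rw [norm_eq (sg a x), toWord_sg, h, norm_eq x, h]
  by_cases h2 : a.1 = hd.1 ∧ a.2 = !hd.2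
  · left
    refine ⟨Prod.ext h2.1 h2.2, ?_⟩
    simp [h2]
  · right
    refine ⟨fun h3 => h2 ⟨by rw [h3]; rfl, by rw [h3]; rfl⟩, ?_⟩
    simp [h2]

lemma norm_sg (a : Lt) (x : T) : (sg a x).norm = x.norm + 1 ∨ (sg a x).norm + 1 = x.norm := by
  rcases h : x.toWord with _ | ⟨hd, tl⟩
  · left
    apply norm_sg_nil
    rw [norm_eq, h]; rfl
  · rcases norm_sg_cons a x hd tl h with h1 | h1
    · exact Or.inr h1.2
    · exact Or.inl h1.2

/-- letters leading away from the root -/
def upL (x : T) : Finset Lt := Finset.univ.filter (fun a => (sg a x).norm = x.norm + 1)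
/-- letters leading towards the root -/
def dnL (x : T) : Finset Lt := Finset.univ.filter (fun a => (sg a x).norm + 1 = x.norm)

lemma card_dnL (x : T) : (dnL x).card = ka p x.norm := by
  unfold dnL
  rcases h : x.toWord with _ | ⟨hd, tl⟩
  · have h0 : x.norm = 0 := by rw [norm_eq, h]; rfl
    have e : (Finset.univ.filter (fun a : Lt => (sg a x).norm + 1 = x.norm)) = ∅ := by
      apply Finset.filter_false_of_mem
      intro a _
      rw [norm_sg_nil a x h0, h0]
      omega
    rw [e, h0]
    simp [ka]
  · have h0 : x.norm ≠ 0 := by rw [norm_eq, h]; simp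
    have e : (Finset.univ.filter (fun a : Lt => (sg a x).norm + 1 = x.norm)) = {iv hd} := by
      ext a
      rw [Finset.mem_filter, Finset.mem_singleton]
      rcases norm_sg_cons a x hd tl h with h1 | h1
      · exact ⟨fun _ => h1.1, fun _ => ⟨Finset.mem_univ _, h1.2⟩⟩
      · constructor
        · rintro ⟨_, h2⟩
          omega
        · intro h2
          exact absurd h2 h1.1
    rw [e]
    simp [ka, h0]

lemma card_upL (x : T) : (upL x).card = ka c x.norm := by
  have h1 : (upL x).card + (dnL x).card = 100 := by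
    unfold upL dnL
    have h2 : (Finset.univ.filter (fun a : Lt => (sg a x).norm + 1 = x.norm)) =
        Finset.univ.filter (fun a : Lt => ¬ (sg a x).norm = x.norm + 1) := by
      apply Finset.filter_congr
      intro a _
      rcases norm_sg a x with h | h
      · constructor
        · intro h3; omega
        · intro h3; exact absurd h h3
      · constructor
        · intro _ h3; omega
        · intro _; exact h
    rw [h2, Finset.card_filter_add_card_filter_not]
    simp
  rw [card_dnL] at h1
  unfold ka at h1 ⊢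
  by_cases h : x.norm = 0
  · simp [h] at h1 ⊢
    exact h1
  · simp [h] at h1 ⊢
    omega

/-- children -/
def chl (x : T) : Finset T := (upL x).image (fun a => sg a x)
/-- parent, if any -/
def par (x : T) : Finset T := (dnL x).image (fun a => sg a x)

lemma card_chl (x : T) : (chl x).card = ka c x.norm := by
  unfold chl
  rw [Finset.card_image_of_injective _ (fun a a' h => sg_inj h), card_upL]

lemma card_par (x : T) : (par x).card = ka p x.norm := by
  unfold par
  rw [Finset.card_image_of_injective _ (fun a a' h => sg_inj h), card_dnL]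

lemma mem_chl (x y : T) : y ∈ chl x ↔ (∃ a, y = sg a x) ∧ y.norm = x.norm + 1 := by
  unfold chl upL
  rw [Finset.mem_image]
  constructor
  · rintro ⟨a, h1, rfl⟩
    exact ⟨⟨a, rfl⟩, (Finset.mem_filter.mp h1).2⟩
  · rintro ⟨⟨a, rfl⟩, h⟩
    exact ⟨a, Finset.mem_filter.mpr ⟨Finset.mem_univ _, h⟩, rfl⟩

lemma mem_par (x y : T) : y ∈ par x ↔ (∃ a, y = sg a x) ∧ y.norm + 1 = x.norm := by
  unfold par dnL
  rw [Finset.mem_image]
  constructor
  · rintro ⟨a, h1, rfl⟩
    exact ⟨⟨a, rfl⟩, (Finset.mem_filter.mp h1).2⟩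
  · rintro ⟨⟨a, rfl⟩, h⟩
    exact ⟨a, Finset.mem_filter.mpr ⟨Finset.mem_univ _, h⟩, rfl⟩

attribute [irreducible] upL dnL chl par

lemma mem_chl_iff (x y : T) : y ∈ chl x ↔ x ∈ par y := by
  rw [mem_chl, mem_par]
  constructor
  · rintro ⟨⟨a, rfl⟩, h⟩
    exact ⟨⟨iv a, (sg_iv a x).symm⟩, h.symm⟩
  · rintro ⟨⟨a, rfl⟩, h⟩
    exact ⟨⟨iv a, (sg_iv a y).symm⟩, h.symm⟩

lemma chl_norm {x y : T} (h : y ∈ chl x) : y.norm = x.norm + 1 := ((mem_chl x y).mp h).2
lemma par_norm {x y : T} (h : y ∈ par x) : y.norm + 1 = x.norm := ((mem_par x y).mp h).2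

lemma par_unique {x y y' : T} (h : y ∈ par x) (h' : y' ∈ par x) : y = y' := by
  have h1 : (par x).card ≤ 1 := by
    rw [card_par]
    simp only [ka]
    split_ifs <;> omega
  exact Finset.card_le_one.mp h1 _ h _ h'

/-- relatives of `x` -/
def st : Mv → T → Finset T
  | z, x => {x}
  | c, x => chl x
  | p, x => par x
  | g, x => (chl x).biUnion chl
  | q, x => (par x).biUnion par

/-- inverse relation -/
def inv : Mv → Mv
  | z => z
  | c => p
  | p => c
  | g => q
  | q => g

/-- integer displacement -/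
def dsp : Mv → ℤ
  | z => 0
  | c => 1
  | p => -1
  | g => 2
  | q => -2

lemma dsp_inj {m m' : Mv} (h : dsp m = dsp m') : m = m' := by
  cases m <;> cases m' <;> first | rfl | (simp [dsp] at h)

lemma mem_st_inv (m : Mv) (x y : T) : y ∈ st m x ↔ x ∈ st (inv m) y := by
  cases m with
  | z => simp only [st, inv, Finset.mem_singleton]; exact eq_comm
  | c => exact mem_chl_iff x y
  | p => exact (mem_chl_iff y x).symm
  | g =>
    simp only [st, inv, Finset.mem_biUnion]
    constructor
    · rintro ⟨w, h1, h2⟩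
      exact ⟨w, (mem_chl_iff _ _).mp h2, (mem_chl_iff _ _).mp h1⟩
    · rintro ⟨w, h1, h2⟩
      exact ⟨w, (mem_chl_iff _ _).mpr h2, (mem_chl_iff _ _).mpr h1⟩
  | q =>
    simp only [st, inv, Finset.mem_biUnion]
    constructor
    · rintro ⟨w, h1, h2⟩
      exact ⟨w, (mem_chl_iff _ _).mpr h2, (mem_chl_iff _ _).mpr h1⟩
    · rintro ⟨w, h1, h2⟩
      exact ⟨w, (mem_chl_iff _ _).mp h2, (mem_chl_iff _ _).mp h1⟩

lemma st_dsp {m : Mv} {x y : T} (h : y ∈ st m x) : (y.norm : ℤ) = x.norm + dsp m := by
  cases m with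
  | z =>
    simp only [st, Finset.mem_singleton] at h
    rw [h]; simp [dsp]
  | c =>
    have := chl_norm h
    simp only [dsp]; omega
  | p =>
    have := par_norm h
    simp only [dsp]; omega
  | g =>
    simp only [st, Finset.mem_biUnion] at h
    obtain ⟨w, h1, h2⟩ := h
    have := chl_norm h1
    have := chl_norm h2
    simp only [dsp]; omega
  | q =>
    simp only [st, Finset.mem_biUnion] at h
    obtain ⟨w, h1, h2⟩ := h
    have := par_norm h1
    have := par_norm h2
    simp only [dsp]; omega

lemma st_norm {m : Mv} {x y : T} (h : y ∈ st m x) : y.norm = sh m x.norm := by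
  have h1 := st_dsp h
  cases m <;> simp only [sh, dsp] at * <;> omega

lemma chl_99 (x : T) : ∀ w ∈ chl x, (chl w).card = 99 := by
  intro w hw
  have h2 := chl_norm hw
  have h3 := card_chl w
  have h4 : ka c (x.norm + 1) = 99 := by simp [ka]
  rw [h2, h4] at h3
  exact h3

lemma card_g (x : T) : ((chl x).biUnion chl).card = ka g x.norm := by
  have h : ((chl x).biUnion chl).card = ∑ w ∈ chl x, (chl w).card := by
    apply Finset.card_biUnion
    intro w _ w' _ hne
    show Disjoint (chl w) (chl w')
    rw [Finset.disjoint_left]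
    intro v h1 h2
    exact hne (par_unique ((mem_chl_iff _ _).mp h1) ((mem_chl_iff _ _).mp h2))
  rw [h, Finset.sum_const_nat (chl_99 x), card_chl]
  simp only [ka]

lemma par_card (x : T) : ∀ w ∈ par x, (par w).card = if x.norm ≤ 1 then 0 else 1 := by
  intro w hw
  have h1 := par_norm hw
  have h2 := card_par w
  rw [h2]
  simp only [ka]
  by_cases h : x.norm ≤ 1
  · rw [if_pos h, if_pos (by omega)]
  · rw [if_neg h, if_neg (by omega)]

lemma card_q (x : T) : ((par x).biUnion par).card = ka q x.norm := by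
  have h : ((par x).biUnion par).card = ∑ w ∈ par x, (par w).card := by
    apply Finset.card_biUnion
    intro w hw w' hw' hne
    exact absurd (par_unique hw hw') hne
  rw [h, Finset.sum_const_nat (par_card x), card_par]
  simp only [ka]
  by_cases h : x.norm ≤ 1
  · rw [if_pos h, mul_zero]
  · rw [if_neg h, if_neg (by omega)]

lemma card_st (m : Mv) (x : T) : (st m x).card = ka m x.norm := by
  cases m with
  | z => simp [st, ka]
  | c => exact card_chl x
  | p => exact card_par x
  | g => exact card_g x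
  | q => exact card_q x

end Pool.Agent.Helper23.LQ
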