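import Mathlib
import Pool.Agent.Helper23.LQ.RadLem
import Pool.Agent.Helper23.LQ.Tree

set_option autoImplicit false

/-!
The graph on `T × T`.
-/

namespace Pool.Agent.Helper23.LQ

open Mv

/-- vertices -/
abbrev V : Type := T × T

/-- level -/
def lev (v : V) : ℕ := v.1.norm + v.2.norm

/-- neighbours -/
def Nf (v : V) : Finset V := Finset.univ.biUnion
  (fun t : Fin 6 => st (Es true (lev v) t).1 v.1 ×ˢ st (Es true (lev v) t).2 v.2)

lemma Es_inj (b : Bool) (n : ℕ) : Function.Injective (Es b n) := by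
  unfold Es
  generalize tA b n = t1
  generalize tA b (n - 1) = t2
  revert t1 t2
  decide

lemma Es_ne (b : Bool) (n : ℕ) : ∀ t, Es b n t ≠ (z, z) := by
  unfold Es
  generalize tA b n = t1
  generalize tA b (n - 1) = t2
  revert t1 t2
  decide

lemma mem_Nf (v w : V) : w ∈ Nf v ↔
    ∃ t, w.1 ∈ st (Es true (lev v) t).1 v.1 ∧ w.2 ∈ st (Es true (lev v) t).2 v.2 := by
  unfold Nf
  simp only [Finset.mem_biUnion, Finset.mem_univ, true_and, Finset.mem_product]

lemma sum_Nf (h : V → ℝ) (v : V) : ∑ w ∈ Nf v, h w = ∑ t : Fin 6,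
    ∑ x ∈ st (Es true (lev v) t).1 v.1, ∑ y ∈ st (Es true (lev v) t).2 v.2, h (x, y) := by
  unfold Nf
  rw [Finset.sum_biUnion]
  · refine Finset.sum_congr rfl fun t _ => ?_
    rw [Finset.sum_product]
  · intro t _ t' _ hne
    show Disjoint _ _
    rw [Finset.disjoint_left]
    intro w h1 h2
    rw [Finset.mem_product] at h1 h2
    apply hne
    apply Es_inj true (lev v)
    have a1 := st_dsp h1.1
    have a2 := st_dsp h1.2
    have b1 := st_dsp h2.1
    have b2 := st_dsp h2.2
    apply Prod.ext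
    · apply dsp_inj
      omega
    · apply dsp_inj
      omega

attribute [irreducible] Nf

lemma Es0 (b : Bool) (n : ℕ) : Es b n 0 = (c, z) := rfl
lemma Es1 (b : Bool) (n : ℕ) : Es b n 1 = (p, z) := rfl
lemma Es2 (b : Bool) (n : ℕ) : Es b n 2 = (z, c) := rfl
lemma Es3 (b : Bool) (n : ℕ) : Es b n 3 = (z, p) := rfl
lemma Es4 (b : Bool) (n : ℕ) : Es b n 4 = if tA b n then (p, g) else (g, p) := rfl
lemma Es5 (b : Bool) (n : ℕ) : Es b n 5 = if tA b (n - 1) then (c, q) else (q, c) := rfl

lemma Nf_symm {v w : V} (h : w ∈ Nf v) : v ∈ Nf w := by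
  rw [mem_Nf] at h ⊢
  obtain ⟨t, h1, h2⟩ := h
  have d1 := st_dsp h1
  have d2 := st_dsp h2
  rw [mem_st_inv] at h1 h2
  have hl : (lev w : ℤ) = lev v + dsp (Es true (lev v) t).1 + dsp (Es true (lev v) t).2 := by
    have e : (lev w : ℤ) = w.1.norm + w.2.norm := by unfold lev; push_cast; rfl
    have e' : (lev v : ℤ) = v.1.norm + v.2.norm := by unfold lev; push_cast; rfl
    rw [e, d1, d2]
    linarith
  fin_cases t
  · exact ⟨1, h1, h2⟩
  · exact ⟨0, h1, h2⟩
  · exact ⟨3, h1, h2⟩
  · exact ⟨2, h1, h2⟩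
  · refine ⟨5, ?_⟩
    change (lev w : ℤ) = lev v + dsp (Es true (lev v) 4).1 + dsp (Es true (lev v) 4).2 at hl
    change v.1 ∈ st (inv (Es true (lev v) 4).1) w.1 at h1
    change v.2 ∈ st (inv (Es true (lev v) 4).2) w.2 at h2
    rw [Es4] at h1 h2 hl
    rw [Es5]
    cases htt : tA true (lev v)
    · rw [htt] at h1 h2 hl
      simp only [Bool.false_eq_true, if_false, inv, dsp] at h1 h2 hl
      have e : lev w - 1 = lev v := by omega
      rw [e, htt]
      simp only [Bool.false_eq_true, if_false, if_true]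
      exact ⟨h1, h2⟩
    · rw [htt] at h1 h2 hl
      simp only [if_true, inv, dsp] at h1 h2 hl
      have e : lev w - 1 = lev v := by omega
      rw [e, htt]
      simp only [Bool.false_eq_true, if_false, if_true]
      exact ⟨h1, h2⟩
  · refine ⟨4, ?_⟩
    change (lev w : ℤ) = lev v + dsp (Es true (lev v) 5).1 + dsp (Es true (lev v) 5).2 at hl
    change v.1 ∈ st (inv (Es true (lev v) 5).1) w.1 at h1
    change v.2 ∈ st (inv (Es true (lev v) 5).2) w.2 at h2
    rw [Es5] at h1 h2 hl
    rw [Es4]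
    cases htt : tA true (lev v - 1)
    · rw [htt] at h1 h2 hl
      simp only [Bool.false_eq_true, if_false, inv, dsp] at h1 h2 hl
      have e : lev w = lev v - 1 := by omega
      rw [e, htt]
      simp only [Bool.false_eq_true, if_false, if_true]
      exact ⟨h1, h2⟩
    · rw [htt] at h1 h2 hl
      simp only [if_true, inv, dsp] at h1 h2 hl
      have e : lev w = lev v - 1 := by omega
      rw [e, htt]
      simp only [Bool.false_eq_true, if_false, if_true]
      exact ⟨h1, h2⟩

lemma Nf_irrefl (v : V) : v ∉ Nf v := by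
  intro h
  rw [mem_Nf] at h
  obtain ⟨t, h1, h2⟩ := h
  have d1 := st_dsp h1
  have d2 := st_dsp h2
  apply Es_ne true (lev v) t
  apply Prod.ext
  · apply dsp_inj
    rw [show dsp z = 0 from rfl]
    omega
  · apply dsp_inj
    rw [show dsp z = 0 from rfl]
    omega

/-- the graph -/
def GG : SimpleGraph V where
  Adj v w := w ∈ Nf v
  symm := ⟨fun _ _ h => Nf_symm h⟩
  loopless := ⟨fun v h => Nf_irrefl v h⟩

instance : GG.LocallyFinite := fun v => Fintype.ofFinset (Nf v) (fun _ => Iff.rfl)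

lemma nbr_eq (v : V) : GG.neighborFinset v = Nf v := by
  ext w
  rw [SimpleGraph.mem_neighborFinset]
  exact Iff.rfl

/-- total number of neighbours, by kinds -/
lemma card_Nf (v : V) : ((Nf v).card : ℝ) = ∑ t : Fin 6,
    (ka (Es true (lev v) t).1 v.1.norm : ℝ) * (ka (Es true (lev v) t).2 v.2.norm : ℝ) := by
  have h := sum_Nf (fun _ => 1) v
  simp only [Finset.sum_const, nsmul_eq_mul, mul_one] at h
  rw [h]
  refine Finset.sum_congr rfl fun t _ => ?_
  rw [card_st, card_st]

/-- lower bound of a sum over a piece of the neighbourhood -/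
lemma piece_lower (h : V → ℝ) (m m' : Mv) (x y : T) (r : ℝ)
    (hr : ∀ x' ∈ st m x, ∀ y' ∈ st m' y, r ≤ h (x', y')) :
    (ka m x.norm : ℝ) * (ka m' y.norm : ℝ) * r ≤ ∑ x' ∈ st m x, ∑ y' ∈ st m' y, h (x', y') := by
  have e : (ka m x.norm : ℝ) * (ka m' y.norm : ℝ) * r =
      ∑ x' ∈ st m x, ∑ y' ∈ st m' y, r := by
    simp only [Finset.sum_const, nsmul_eq_mul, card_st]
    ring
  rw [e]
  exact Finset.sum_le_sum fun x' hx => Finset.sum_le_sum fun y' hy => hr x' hx y' hy

/-- if a harmonic function is bounded below by a radial function, then that radial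
function satisfies a superharmonicity inequality -/
lemma radial_lower (h : V → ℝ) (v : V) (f : ℕ → ℕ → ℝ)
    (hf : ∀ w, f w.1.norm w.2.norm ≤ h w) (hh : ((Nf v).card : ℝ) * h v = ∑ w ∈ Nf v, h w) :
    ∑ t : Fin 6, (ka (Es true (lev v) t).1 v.1.norm : ℝ) * (ka (Es true (lev v) t).2 v.2.norm : ℝ) *
      (f (sh (Es true (lev v) t).1 v.1.norm) (sh (Es true (lev v) t).2 v.2.norm) - h v) ≤ 0 := by
  have h1 : ∑ t : Fin 6, (ka (Es true (lev v) t).1 v.1.norm : ℝ) *
      (ka (Es true (lev v) t).2 v.2.norm : ℝ) *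
      f (sh (Es true (lev v) t).1 v.1.norm) (sh (Es true (lev v) t).2 v.2.norm) ≤
      ∑ w ∈ Nf v, h w := by
    rw [sum_Nf]
    refine Finset.sum_le_sum fun t _ => ?_
    apply piece_lower
    intro x hx y hy
    rw [← st_norm hx, ← st_norm hy]
    exact hf (x, y)
  rw [← hh, card_Nf, Finset.sum_mul] at h1
  simp only [mul_sub]
  rw [Finset.sum_sub_distrib]
  linarith

end Pool.Agent.Helper23.LQ
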