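import Mathlib
import Pool.Agent.Helper23.LQ.Graph

set_option autoImplicit false

/-!
Bounded harmonic functions on the graph are constant.
-/

namespace Pool.Agent.Helper23.LQ

open Mv

/-- harmonic for simple random walk -/
def IsH (h : V → ℝ) : Prop := ∀ v, ((Nf v).card : ℝ) * h v = ∑ w ∈ Nf v, h w

/-- a word of given length -/
def wd (n : ℕ) : T := FreeGroup.of 0 ^ n

lemma wd_norm (n : ℕ) : (wd n).norm = n := FreeGroup.norm_of_pow _ _

/-- total degree in terms of the radial coordinates -/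
lemma deg_pos (i j : ℕ) : (0 : ℝ) < ∑ t : Fin 6,
    (ka (Es true (i + j) t).1 i : ℝ) * (ka (Es true (i + j) t).2 j : ℝ) := by
  have h1 : (0 : ℝ) < (ka (Es true (i + j) 0).1 i : ℝ) * (ka (Es true (i + j) 0).2 j : ℝ) := by
    rw [Es0]
    have h2 : (ka z j : ℝ) = 1 := by simp [ka]
    have h3 := (ka_le i).2.1
    show (0 : ℝ) < (ka c i : ℝ) * (ka z j : ℝ)
    rw [h2]
    linarith
  refine lt_of_lt_of_le h1 ?_
  exact Finset.single_le_sum (f := fun t : Fin 6 =>
    (ka (Es true (i + j) t).1 i : ℝ) * (ka (Es true (i + j) t).2 j : ℝ))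
    (fun t _ => by positivity) (Finset.mem_univ 0)

/-- infimum over a family of values is superharmonic -/
lemma inf_super (R : ℕ → ℕ → Set ℝ) (hne : ∀ i j, (R i j).Nonempty)
    (f : ℕ → ℕ → ℝ) (hf : ∀ i j, f i j = sInf (R i j))
    (hR : ∀ i j, ∀ r ∈ R i j, ∑ t : Fin 6, (ka (Es true (i + j) t).1 i : ℝ) *
      (ka (Es true (i + j) t).2 j : ℝ) *
      (f (sh (Es true (i + j) t).1 i) (sh (Es true (i + j) t).2 j) - r) ≤ 0) :
    ∀ i j, Lap true f i j ≤ 0 := by
  intro i j
  unfold Lap
  set K : ℝ := ∑ t : Fin 6, (ka (Es true (i + j) t).1 i : ℝ) * (ka (Es true (i + j) t).2 j : ℝ)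
    with hK
  set B : ℝ := ∑ t : Fin 6, (ka (Es true (i + j) t).1 i : ℝ) *
      (ka (Es true (i + j) t).2 j : ℝ) *
      f (sh (Es true (i + j) t).1 i) (sh (Es true (i + j) t).2 j) with hB
  have hKp : 0 < K := deg_pos i j
  have e : ∀ r : ℝ, ∑ t : Fin 6, (ka (Es true (i + j) t).1 i : ℝ) *
      (ka (Es true (i + j) t).2 j : ℝ) *
      (f (sh (Es true (i + j) t).1 i) (sh (Es true (i + j) t).2 j) - r) = B - K * r := by
    intro r
    rw [hB, hK, Finset.sum_mul, ← Finset.sum_sub_distrib]
    exact Finset.sum_congr rfl fun t _ => by ring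
  rw [e]
  have h1 : B / K ≤ f i j := by
    rw [hf]
    apply le_csInf (hne i j)
    intro r hr
    have := hR i j r hr
    rw [e] at this
    rw [div_le_iff₀ hKp]
    linarith
  rw [div_le_iff₀ hKp] at h1
  linarith

lemma pair_sum (Q Q' : Finset T) (u : T → ℝ) (r : ℝ) (hc : Q.card = Q'.card)
    (hr : ∀ y ∈ Q, ∀ y' ∈ Q', u y - u y' ≤ r) :
    ∑ y ∈ Q, u y - ∑ y' ∈ Q', u y' ≤ (Q.card : ℝ) * r := by
  rcases Finset.eq_empty_or_nonempty Q with h0 | h0
  · subst h0
    have : Q' = ∅ := Finset.card_eq_zero.mp (by rw [← hc]; simp)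
    rw [this]
    simp
  · have hp : (0 : ℝ) < Q.card := by exact_mod_cast h0.card_pos
    have h1 : ∑ y ∈ Q, ∑ y' ∈ Q', (u y - u y') ≤ ∑ y ∈ Q, ∑ y' ∈ Q', r :=
      Finset.sum_le_sum fun y hy => Finset.sum_le_sum fun y' hy' => hr y hy y' hy'
    simp only [Finset.sum_sub_distrib, Finset.sum_const, nsmul_eq_mul] at h1
    rw [← Finset.mul_sum, ← hc] at h1
    have h2 : (Q.card : ℝ) * (∑ y ∈ Q, u y - ∑ y' ∈ Q', u y') ≤
        (Q.card : ℝ) * ((Q.card : ℝ) * r) := by
      linarith
    exact le_of_mul_le_mul_left h2 hp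

/-- values at vertices with the same first coordinate and second coordinates of the same norm
agree -/
theorem stepA (h : V → ℝ) (hh : IsH h) (M : ℝ) (hM : ∀ v, |h v| ≤ M) (x y y' : T)
    (hy : y.norm = y'.norm) : h (x, y) = h (x, y') := by
  classical
  set D : Set ℝ := {r | ∃ x y y' : T, y.norm = y'.norm ∧ r = h (x, y) - h (x, y')} with hD
  set S : ℝ := sSup D with hS
  have hb : BddAbove D := by
    refine ⟨2 * M, ?_⟩
    rintro r ⟨x, y, y', _, rfl⟩
    have h1 := abs_le.mp (hM (x, y))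
    have h2 := abs_le.mp (hM (x, y'))
    linarith
  have hDS : ∀ x y y' : T, y.norm = y'.norm → h (x, y) - h (x, y') ≤ S :=
    fun x y y' hy => le_csSup hb ⟨x, y, y', hy, rfl⟩
  set R : ℕ → ℕ → Set ℝ := fun i j => {r | ∃ x y y' : T, x.norm = i ∧ y.norm = j ∧ y'.norm = j ∧
    r = S - (h (x, y) - h (x, y'))} with hR
  set f : ℕ → ℕ → ℝ := fun i j => sInf (R i j) with hf
  have hne : ∀ i j, (R i j).Nonempty := fun i j =>
    ⟨_, wd i, wd j, wd j, wd_norm i, wd_norm j, wd_norm j, rfl⟩
  have hbd : ∀ i j, BddBelow (R i j) := by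
    intro i j
    refine ⟨0, ?_⟩
    rintro r ⟨x, y, y', _, h2, h3, rfl⟩
    have := hDS x y y' (h2.trans h3.symm)
    linarith
  have hf0 : ∀ i j, 0 ≤ f i j := by
    intro i j
    apply le_csInf (hne i j)
    rintro r ⟨x, y, y', _, h2, h3, rfl⟩
    have := hDS x y y' (h2.trans h3.symm)
    linarith
  have hfle : ∀ x y y' : T, y.norm = y'.norm →
      f x.norm y.norm ≤ S - (h (x, y) - h (x, y')) := by
    intro x y y' hy
    exact csInf_le (hbd _ _) ⟨x, y, y', rfl, rfl, hy.symm, rfl⟩
  have hLap : ∀ i j, Lap true f i j ≤ 0 := by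
    apply inf_super R hne f (fun _ _ => rfl)
    rintro i j r ⟨x, y, y', rfl, rfl, hy', rfl⟩
    have e1 := hh (x, y)
    have e2 := hh (x, y')
    have hl : lev (x, y') = x.norm + y.norm := by
      unfold lev
      rw [hy']
    have hl0 : lev (x, y) = x.norm + y.norm := rfl
    rw [sum_Nf, card_Nf, hl0] at e1
    rw [sum_Nf, card_Nf, hl] at e2
    simp only [hy'] at e2
    have key : ∀ t : Fin 6, ∑ x' ∈ st (Es true (x.norm + y.norm) t).1 x,
          ∑ u ∈ st (Es true (x.norm + y.norm) t).2 y, h (x', u) -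
        ∑ x' ∈ st (Es true (x.norm + y.norm) t).1 x,
          ∑ u ∈ st (Es true (x.norm + y.norm) t).2 y', h (x', u) ≤
        (ka (Es true (x.norm + y.norm) t).1 x.norm : ℝ) *
        (ka (Es true (x.norm + y.norm) t).2 y.norm : ℝ) *
        (S - f (sh (Es true (x.norm + y.norm) t).1 x.norm)
          (sh (Es true (x.norm + y.norm) t).2 y.norm)) := by
      intro t
      generalize (Es true (x.norm + y.norm) t).1 = m1
      generalize (Es true (x.norm + y.norm) t).2 = m2
      rw [← Finset.sum_sub_distrib]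
      have k1 : ∀ x' ∈ st m1 x, ∑ u ∈ st m2 y, h (x', u) - ∑ u ∈ st m2 y', h (x', u) ≤
          (ka m2 y.norm : ℝ) * (S - f (sh m1 x.norm) (sh m2 y.norm)) := by
        intro x' hx'
        have k2 := pair_sum (st m2 y) (st m2 y') (fun u => h (x', u))
          (S - f (sh m1 x.norm) (sh m2 y.norm)) (by rw [card_st, card_st, hy'])
          (by
            intro u hu u' hu'
            have n1 := st_norm hx'
            have n2 := st_norm hu
            have n3 := st_norm hu'
            have := hfle x' u u' (by rw [n2, n3, hy'])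
            rw [n1, n2] at this
            show h (x', u) - h (x', u') ≤ _
            linarith)
        rw [card_st] at k2
        exact k2
      calc ∑ x' ∈ st m1 x, (∑ u ∈ st m2 y, h (x', u) - ∑ u ∈ st m2 y', h (x', u))
          ≤ ∑ x' ∈ st m1 x, (ka m2 y.norm : ℝ) * (S - f (sh m1 x.norm) (sh m2 y.norm)) :=
            Finset.sum_le_sum k1
        _ = _ := by
            rw [Finset.sum_const, nsmul_eq_mul, card_st]
            ring
    have hsum := Finset.sum_le_sum fun t (_ : t ∈ (Finset.univ : Finset (Fin 6))) => key t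
    rw [Finset.sum_sub_distrib, ← e1, ← e2, ← mul_sub] at hsum
    rw [Finset.sum_mul] at hsum
    have h3 : ∑ t : Fin 6, (ka (Es true (x.norm + y.norm) t).1 x.norm : ℝ) *
        (ka (Es true (x.norm + y.norm) t).2 y.norm : ℝ) *
        (f (sh (Es true (x.norm + y.norm) t).1 x.norm)
          (sh (Es true (x.norm + y.norm) t).2 y.norm) - (S - (h (x, y) - h (x, y')))) =
        ∑ t : Fin 6, (ka (Es true (x.norm + y.norm) t).1 x.norm : ℝ) *
          (ka (Es true (x.norm + y.norm) t).2 y.norm : ℝ) * (h (x, y) - h (x, y')) -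
        ∑ t : Fin 6, (ka (Es true (x.norm + y.norm) t).1 x.norm : ℝ) *
          (ka (Es true (x.norm + y.norm) t).2 y.norm : ℝ) *
          (S - f (sh (Es true (x.norm + y.norm) t).1 x.norm)
          (sh (Es true (x.norm + y.norm) t).2 y.norm)) := by
      rw [← Finset.sum_sub_distrib]
      exact Finset.sum_congr rfl fun t _ => by ring
    rw [h3]
    linarith
  -- the value at the root of the second tree
  have hfN : ∀ n, f n 0 = S := by
    intro n
    have e : R n 0 = {S} := by
      ext r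
      constructor
      · rintro ⟨x, y, y', _, h2, h3, rfl⟩
        rw [FreeGroup.norm_eq_zero] at h2 h3
        rw [h2, h3]
        simp
      · rintro rfl
        refine ⟨wd n, 1, 1, wd_norm n, by simp, by simp, by ring⟩
    show sInf (R n 0) = S
    rw [e, csInf_singleton]
  -- domination on odd shells
  have hdom : ∀ i j, S ≤ 2 * DD ^ 6 * f i j := by
    intro i j
    set k : ℕ := 2 * (3 * j + i) + 1 with hk
    have hk1 : 3 * j + i ≤ 8 * 8 ^ k := by
      have : k < 8 ^ k := Nat.lt_pow_self (by norm_num)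
      omega
    have ha : 8 ≤ 8 ^ k := by
      calc 8 = 8 ^ 1 := by norm_num
        _ ≤ 8 ^ k := Nat.pow_le_pow_right (by norm_num) (by omega)
    have hA : ∀ n, 8 ^ k ≤ n → n < 8 * 8 ^ k → tA false n = true := by
      intro n h1 h2
      have hlog : Nat.log 8 n = k := by
        apply Nat.log_eq_of_pow_le_of_lt_pow h1
        rw [pow_succ]
        omega
      unfold tA
      rw [hlog, hk]
      have : (2 * (3 * j + i) + 1) % 2 = 1 := by omega
      rw [this]
      rfl
    have h1 := radial false (8 ^ k) ha hA (fun i j => f j i) (fun i j => hf0 j i)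
      (fun i j => by rw [Lap_swap]; exact hLap j i) j i hk1
    simp only [hfN] at h1
    exact h1
  have hC : (0 : ℝ) < 2 * DD ^ 6 := by unfold DD; positivity
  have hS0 : S ≤ 0 := by
    have h1 : ∀ r ∈ D, r ≤ S - S / (2 * DD ^ 6) := by
      rintro r ⟨x, y, y', hy, rfl⟩
      have h2 := hdom x.norm y.norm
      have h3 := hfle x y y' hy
      have h4 : S / (2 * DD ^ 6) ≤ f x.norm y.norm := by
        rw [div_le_iff₀ hC]
        linarith
      linarith
    have h2 : S ≤ S - S / (2 * DD ^ 6) := csSup_le ⟨_, 1, 1, 1, rfl, rfl⟩ h1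
    have h3 : S / (2 * DD ^ 6) ≤ 0 := by linarith
    by_contra hcon
    push Not at hcon
    have := div_pos hcon hC
    linarith
  have h1 := hDS x y y' hy
  have h2 := hDS x y' y hy.symm
  linarith

/-- nonnegative harmonic functions are bounded below by their values at far away points -/
theorem stepB (h : V → ℝ) (hh : IsH h) (h0 : ∀ v, 0 ≤ h v)
    (hA : ∀ x y y' : T, y.norm = y'.norm → h (x, y) = h (x, y')) (v : V) (l : ℕ)
    (hl : v.1.norm + v.2.norm ≤ l) :
    h (1, wd (8 * 8 ^ (2 * l + 2))) ≤ 2 * DD ^ 6 * h v := by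
  classical
  set R : ℕ → ℕ → Set ℝ := fun i j => {r | ∃ x y : T, x.norm = i ∧ y.norm = j ∧
    r = h (x, y)} with hR
  set f : ℕ → ℕ → ℝ := fun i j => sInf (R i j) with hf
  have hne : ∀ i j, (R i j).Nonempty := fun i j => ⟨_, wd i, wd j, wd_norm i, wd_norm j, rfl⟩
  have hbd : ∀ i j, BddBelow (R i j) := by
    intro i j
    refine ⟨0, ?_⟩
    rintro r ⟨x, y, _, _, rfl⟩
    exact h0 _
  have hf0 : ∀ i j, 0 ≤ f i j := by
    intro i j
    apply le_csInf (hne i j)
    rintro r ⟨x, y, _, _, rfl⟩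
    exact h0 _
  have hfle : ∀ w : V, f w.1.norm w.2.norm ≤ h w := fun w =>
    csInf_le (hbd _ _) ⟨w.1, w.2, rfl, rfl, rfl⟩
  have hLap : ∀ i j, Lap true f i j ≤ 0 := by
    apply inf_super R hne f (fun _ _ => rfl)
    rintro i j r ⟨x, y, rfl, rfl, rfl⟩
    exact radial_lower h (x, y) f hfle (hh (x, y))
  set k : ℕ := 2 * l + 2 with hk
  have ha : 8 ≤ 8 ^ k := by
    calc 8 = 8 ^ 1 := by norm_num
      _ ≤ 8 ^ k := Nat.pow_le_pow_right (by norm_num) (by omega)
  have hA2 : ∀ n, 8 ^ k ≤ n → n < 8 * 8 ^ k → tA true n = true := by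
    intro n h1 h2
    have hlog : Nat.log 8 n = k := by
      apply Nat.log_eq_of_pow_le_of_lt_pow h1
      rw [pow_succ]
      omega
    unfold tA
    rw [hlog, hk]
    have : (2 * l + 2) % 2 = 0 := by omega
    rw [this]
    rfl
  have hk1 : 3 * v.1.norm + v.2.norm ≤ 8 * 8 ^ k := by
    have : k < 8 ^ k := Nat.lt_pow_self (by norm_num)
    omega
  have h1 := radial true (8 ^ k) ha hA2 f hf0 hLap v.1.norm v.2.norm hk1
  have h2 : f 0 (8 * 8 ^ k) = h (1, wd (8 * 8 ^ k)) := by
    have e : R 0 (8 * 8 ^ k) = {h (1, wd (8 * 8 ^ k))} := by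
      ext r
      constructor
      · rintro ⟨x, y, h2, h3, rfl⟩
        rw [FreeGroup.norm_eq_zero] at h2
        rw [h2]
        exact hA 1 y _ (h3.trans (wd_norm _).symm)
      · rintro rfl
        exact ⟨1, wd (8 * 8 ^ k), by simp, wd_norm _, rfl⟩
    show sInf (R 0 (8 * 8 ^ k)) = _
    rw [e, csInf_singleton]
  rw [← h2]
  refine h1.trans (mul_le_mul_of_nonneg_left (hfle v) ?_)
  unfold DD; positivity

/-- every bounded harmonic function is constant -/
theorem liouville (h : V → ℝ) (hh : IsH h) (M : ℝ) (hM : ∀ v, |h v| ≤ M) (v w : V) :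
    h v = h w := by
  have hA := stepA h hh M hM
  set s : ℝ := sSup (Set.range h) with hs
  set t : ℝ := sInf (Set.range h) with ht
  have hba : BddAbove (Set.range h) := ⟨M, by rintro _ ⟨u, rfl⟩; exact (abs_le.mp (hM u)).2⟩
  have hbb : BddBelow (Set.range h) := ⟨-M, by rintro _ ⟨u, rfl⟩; exact (abs_le.mp (hM u)).1⟩
  have hne : (Set.range h).Nonempty := ⟨_, v, rfl⟩
  have hle : ∀ u, h u ≤ s := fun u => le_csSup hba ⟨u, rfl⟩
  have hge : ∀ u, t ≤ h u := fun u => csInf_le hbb ⟨u, rfl⟩
  have hst : s ≤ t := by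
    by_contra hcon
    push Not at hcon
    have hC : (0 : ℝ) < 2 * DD ^ 6 := by unfold DD; positivity
    set δ : ℝ := (s - t) / (2 * (2 * DD ^ 6)) with hδ
    have hδ0 : 0 < δ := by
      rw [hδ]
      have : 0 < s - t := by linarith
      positivity
    obtain ⟨_, ⟨u1, rfl⟩, hu1⟩ := exists_lt_of_csInf_lt hne (show sInf (Set.range h) < t + δ by
      rw [← ht]; linarith)
    obtain ⟨_, ⟨u2, rfl⟩, hu2⟩ := exists_lt_of_lt_csSup hne (show s - δ < sSup (Set.range h) by
      rw [← hs]; linarith)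
    set l : ℕ := (u1.1.norm + u1.2.norm) + (u2.1.norm + u2.2.norm) with hl
    have b1 := stepB (fun u => h u - t)
      (by
        intro u
        have := hh u
        simp only [Finset.sum_sub_distrib, Finset.sum_const, nsmul_eq_mul]
        rw [← this]; ring)
      (fun u => by have := hge u; linarith)
      (fun x y y' hy => by rw [hA x y y' hy]) u1 l (by omega)
    have b2 := stepB (fun u => s - h u)
      (by
        intro u
        have := hh u
        simp only [Finset.sum_sub_distrib, Finset.sum_const, nsmul_eq_mul]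
        rw [← this]; ring)
      (fun u => by have := hle u; linarith)
      (fun x y y' hy => by rw [hA x y y' hy]) u2 l (by omega)
    have c1 : 2 * DD ^ 6 * (h u1 - t) < (s - t) / 2 := by
      have : h u1 - t < δ := by linarith
      calc 2 * DD ^ 6 * (h u1 - t) < 2 * DD ^ 6 * δ := mul_lt_mul_of_pos_left this hC
        _ = (s - t) / 2 := by rw [hδ]; field_simp
    have c2 : 2 * DD ^ 6 * (s - h u2) < (s - t) / 2 := by
      have : s - h u2 < δ := by linarith
      calc 2 * DD ^ 6 * (s - h u2) < 2 * DD ^ 6 * δ := mul_lt_mul_of_pos_left this hC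
        _ = (s - t) / 2 := by rw [hδ]; field_simp
    linarith
  have h1 := hle v
  have h2 := hge v
  have h3 := hle w
  have h4 := hge w
  linarith

end Pool.Agent.Helper23.LQ
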