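import Mathlib
import Pool.Agent.Helper23.LQ.Steps

set_option autoImplicit false

/-!
The graph is quasi-isometric to the Cayley graph of a product of free groups.
-/

namespace Pool.Agent.Helper23.LQ

open Mv

/-- the generating set of `T × T` -/
def SS : Finset V := (Finset.univ.image (fun a : Fin 50 => ((FreeGroup.of a, 1) : V))) ∪
  (Finset.univ.image (fun a : Fin 50 => ((1, FreeGroup.of a) : V)))

lemma mem_SS_left (a : Fin 50) : ((FreeGroup.of a, 1) : V) ∈ SS :=
  Finset.mem_union_left _ (Finset.mem_image.mpr ⟨a, Finset.mem_univ _, rfl⟩)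

lemma mem_SS_right (a : Fin 50) : ((1, FreeGroup.of a) : V) ∈ SS :=
  Finset.mem_union_right _ (Finset.mem_image.mpr ⟨a, Finset.mem_univ _, rfl⟩)

lemma mem_SS {v : V} (h : v ∈ SS) : (∃ a, v = (FreeGroup.of a, 1)) ∨ ∃ a, v = (1, FreeGroup.of a) := by
  rcases Finset.mem_union.mp h with h | h
  · obtain ⟨a, _, rfl⟩ := Finset.mem_image.mp h
    exact Or.inl ⟨a, rfl⟩
  · obtain ⟨a, _, rfl⟩ := Finset.mem_image.mp h
    exact Or.inr ⟨a, rfl⟩

attribute [irreducible] SS

/-- the Cayley graph -/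
abbrev Cay : SimpleGraph V := SimpleGraph.fromRel (fun a b : V => a⁻¹ * b ∈ SS)

lemma closure_SS : Subgroup.closure (SS : Set V) = ⊤ := by
  have h1 : Subgroup.closure (Set.range (FreeGroup.of : Fin 50 → T)) = ⊤ :=
    FreeGroup.closure_range_of _
  have hl : Subgroup.map (MonoidHom.inl T T) (Subgroup.closure (Set.range FreeGroup.of)) ≤
      Subgroup.closure (SS : Set V) := by
    rw [MonoidHom.map_closure]
    apply Subgroup.closure_mono
    rintro _ ⟨_, ⟨a, rfl⟩, rfl⟩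
    exact mem_SS_left a
  have hr : Subgroup.map (MonoidHom.inr T T) (Subgroup.closure (Set.range FreeGroup.of)) ≤
      Subgroup.closure (SS : Set V) := by
    rw [MonoidHom.map_closure]
    apply Subgroup.closure_mono
    rintro _ ⟨_, ⟨a, rfl⟩, rfl⟩
    exact mem_SS_right a
  rw [eq_top_iff]
  rintro ⟨x, y⟩ _
  have e : ((x, y) : V) = (x, 1) * (1, y) := by simp
  rw [e]
  refine mul_mem (hl ⟨x, ?_, rfl⟩) (hr ⟨y, ?_, rfl⟩)
  · rw [h1]; trivial
  · rw [h1]; trivial

lemma adj_mul {g s : V} (hs : s ∈ SS) : Cay.Adj g (g * s) := by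
  rw [SimpleGraph.fromRel_adj]
  refine ⟨?_, Or.inl (by rwa [inv_mul_cancel_left])⟩
  intro h
  have h1 : s = 1 := by
    have := congrArg (fun x => g⁻¹ * x) h
    simpa using this.symm
  rw [h1] at hs
  rcases mem_SS hs with ⟨a, ha⟩ | ⟨a, ha⟩
  · exact FreeGroup.of_ne_one a (congrArg Prod.fst ha).symm
  · exact FreeGroup.of_ne_one a (congrArg Prod.snd ha).symm

lemma adj_mul_inv {g s : V} (hs : s ∈ SS) : Cay.Adj g (g * s⁻¹) := by
  have := adj_mul (g := g * s⁻¹) hs
  rw [inv_mul_cancel_right] at this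
  exact this.symm

lemma cay_connected : Cay.Connected := by
  have h1 : ∀ g : V, Cay.Reachable 1 g := by
    intro g
    have hg : g ∈ Subgroup.closure (SS : Set V) := by rw [closure_SS]; trivial
    induction hg using Subgroup.closure_induction_right with
    | one => exact SimpleGraph.Reachable.refl _
    | mul_right x _ y hy ih => exact ih.trans (adj_mul hy).reachable
    | mul_inv_cancel x _ y hy ih => exact ih.trans (adj_mul_inv hy).reachable
  exact ⟨fun g h => (h1 g).symm.trans (h1 h)⟩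

/-- a letter acting on the first coordinate -/
lemma adj_left (a : Lt) (x y : T) : Cay.Adj (x⁻¹, y) ((sg a x)⁻¹, y) := by
  obtain ⟨i, b⟩ := a
  cases b
  · have e : ((sg (i, false) x)⁻¹, y) = ((x⁻¹, y) : V) * (FreeGroup.of i, 1) := by
      refine Prod.ext ?_ (mul_one y).symm
      show (FreeGroup.mk [(i, false)] * x)⁻¹ = x⁻¹ * FreeGroup.of i
      rw [mul_inv_rev, FreeGroup.inv_mk]
      rfl
    rw [e]
    exact adj_mul (mem_SS_left i)
  · have e : ((sg (i, true) x)⁻¹, y) = ((x⁻¹, y) : V) * (FreeGroup.of i, 1)⁻¹ := by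
      refine Prod.ext ?_ ?_
      · show (FreeGroup.mk [(i, true)] * x)⁻¹ = x⁻¹ * (FreeGroup.of i)⁻¹
        rw [mul_inv_rev]
        rfl
      · show y = y * 1⁻¹
        simp
    rw [e]
    exact adj_mul_inv (mem_SS_left i)

lemma adj_right (a : Lt) (x y : T) : Cay.Adj (x, y⁻¹) (x, (sg a y)⁻¹) := by
  obtain ⟨i, b⟩ := a
  cases b
  · have e : (x, (sg (i, false) y)⁻¹) = ((x, y⁻¹) : V) * (1, FreeGroup.of i) := by
      refine Prod.ext (mul_one x).symm ?_
      show (FreeGroup.mk [(i, false)] * y)⁻¹ = y⁻¹ * FreeGroup.of i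
      rw [mul_inv_rev, FreeGroup.inv_mk]
      rfl
    rw [e]
    exact adj_mul (mem_SS_right i)
  · have e : (x, (sg (i, true) y)⁻¹) = ((x, y⁻¹) : V) * (1, FreeGroup.of i)⁻¹ := by
      refine Prod.ext ?_ ?_
      · show x = x * 1⁻¹
        simp
      · show (FreeGroup.mk [(i, true)] * y)⁻¹ = y⁻¹ * (FreeGroup.of i)⁻¹
        rw [mul_inv_rev]
        rfl
    rw [e]
    exact adj_mul_inv (mem_SS_right i)

lemma sg_mem (a : Lt) (x : T) : sg a x ∈ chl x ∨ sg a x ∈ par x := by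
  rcases norm_sg a x with h | h
  · exact Or.inl ((mem_chl _ _).mpr ⟨⟨a, rfl⟩, h⟩)
  · exact Or.inr ((mem_par _ _).mpr ⟨⟨a, rfl⟩, h⟩)

lemma gg_left (a : Lt) (x y : T) : GG.Adj (x, y) (sg a x, y) := by
  show (sg a x, y) ∈ Nf (x, y)
  rw [mem_Nf]
  rcases sg_mem a x with h | h
  · exact ⟨0, h, Finset.mem_singleton_self _⟩
  · exact ⟨1, h, Finset.mem_singleton_self _⟩

lemma gg_right (a : Lt) (x y : T) : GG.Adj (x, y) (x, sg a y) := by
  show (x, sg a y) ∈ Nf (x, y)
  rw [mem_Nf]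
  rcases sg_mem a y with h | h
  · exact ⟨2, Finset.mem_singleton_self _, h⟩
  · exact ⟨3, Finset.mem_singleton_self _, h⟩

lemma inv_step (g s : V) (hs : s ∈ SS) : GG.Adj g⁻¹ (g * s)⁻¹ := by
  rcases mem_SS hs with ⟨i, rfl⟩ | ⟨i, rfl⟩
  · have e : (g * ((FreeGroup.of i, 1) : V))⁻¹ = (sg (i, false) g.1⁻¹, g.2⁻¹) := by
      rw [mul_inv_rev]
      refine Prod.ext ?_ ?_
      · show (FreeGroup.of i)⁻¹ * g.1⁻¹ = FreeGroup.mk [(i, false)] * g.1⁻¹
        rfl
      · show 1⁻¹ * g.2⁻¹ = g.2⁻¹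
        simp
    rw [e]
    exact gg_left _ _ _
  · have e : (g * ((1, FreeGroup.of i) : V))⁻¹ = (g.1⁻¹, sg (i, false) g.2⁻¹) := by
      rw [mul_inv_rev]
      refine Prod.ext ?_ ?_
      · show 1⁻¹ * g.1⁻¹ = g.1⁻¹
        simp
      · show (FreeGroup.of i)⁻¹ * g.2⁻¹ = FreeGroup.mk [(i, false)] * g.2⁻¹
        rfl
    rw [e]
    exact gg_right _ _ _

/-- inversion maps Cayley edges to edges of the graph -/
def psi : Cay →g GG where
  toFun g := g⁻¹
  map_rel' := by
    intro a b h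
    rw [SimpleGraph.fromRel_adj] at h
    rcases h.2 with h | h
    · have := inv_step a _ h
      rwa [mul_inv_cancel_left] at this
    · have := inv_step b _ h
      rw [mul_inv_cancel_left] at this
      exact this.symm

lemma gg_connected : GG.Connected := by
  refine ⟨fun v w => ?_⟩
  have h := (cay_connected.preconnected v⁻¹ w⁻¹).map psi
  have e : ∀ u : V, psi u⁻¹ = u := fun u => inv_inv u
  rwa [e, e] at h

lemma gg_dist_le (v w : V) : GG.dist v w ≤ Cay.dist v⁻¹ w⁻¹ := by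
  obtain ⟨p, hp⟩ := (cay_connected.preconnected v⁻¹ w⁻¹).exists_walk_length_eq_dist
  have h := SimpleGraph.dist_le (p.map psi)
  have e : ∀ u : V, psi u⁻¹ = u := fun u => inv_inv u
  rw [SimpleGraph.Walk.length_map, hp, e, e] at h
  exact h

lemma par_dist_left {x x' : T} (y : T) (h : x' ∈ par x) : Cay.dist (x⁻¹, y) (x'⁻¹, y) ≤ 1 := by
  obtain ⟨⟨a, rfl⟩, _⟩ := (mem_par _ _).mp h
  exact (SimpleGraph.dist_eq_one_iff_adj.mpr (adj_left a x y)).le

lemma par_dist_right {y y' : T} (x : T) (h : y' ∈ par y) : Cay.dist (x, y⁻¹) (x, y'⁻¹) ≤ 1 := by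
  obtain ⟨⟨a, rfl⟩, _⟩ := (mem_par _ _).mp h
  exact (SimpleGraph.dist_eq_one_iff_adj.mpr (adj_right a x y)).le

lemma tri (a b c : V) : Cay.dist a c ≤ Cay.dist a b + Cay.dist b c :=
  cay_connected.dist_triangle

lemma st_dist_left (m : Mv) {x x' : T} (y : T) (h : x' ∈ st m x) :
    Cay.dist (x⁻¹, y) (x'⁻¹, y) ≤ (dsp m).natAbs := by
  cases m with
  | z =>
    have : x' = x := Finset.mem_singleton.mp h
    rw [this, SimpleGraph.dist_self]
    simp
  | c =>
    have h1 : x ∈ par x' := (mem_chl_iff _ _).mp h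
    rw [SimpleGraph.dist_comm]
    exact par_dist_left y h1
  | p => exact par_dist_left y h
  | g =>
    obtain ⟨w, h1, h2⟩ := Finset.mem_biUnion.mp h
    have h3 := par_dist_left y ((mem_chl_iff _ _).mp h1)
    have h4 := par_dist_left y ((mem_chl_iff _ _).mp h2)
    have h5 := tri (x'⁻¹, y) (w⁻¹, y) (x⁻¹, y)
    rw [SimpleGraph.dist_comm]
    show _ ≤ 2
    omega
  | q =>
    obtain ⟨w, h1, h2⟩ := Finset.mem_biUnion.mp h
    have h3 := par_dist_left y h1
    have h4 := par_dist_left y h2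
    have h5 := tri (x⁻¹, y) (w⁻¹, y) (x'⁻¹, y)
    show _ ≤ 2
    omega

lemma st_dist_right (m : Mv) {y y' : T} (x : T) (h : y' ∈ st m y) :
    Cay.dist (x, y⁻¹) (x, y'⁻¹) ≤ (dsp m).natAbs := by
  cases m with
  | z =>
    have : y' = y := Finset.mem_singleton.mp h
    rw [this, SimpleGraph.dist_self]
    simp
  | c =>
    have h1 : y ∈ par y' := (mem_chl_iff _ _).mp h
    rw [SimpleGraph.dist_comm]
    exact par_dist_right x h1
  | p => exact par_dist_right x h
  | g =>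
    obtain ⟨w, h1, h2⟩ := Finset.mem_biUnion.mp h
    have h3 := par_dist_right x ((mem_chl_iff _ _).mp h1)
    have h4 := par_dist_right x ((mem_chl_iff _ _).mp h2)
    have h5 := tri (x, y'⁻¹) (x, w⁻¹) (x, y⁻¹)
    rw [SimpleGraph.dist_comm]
    show _ ≤ 2
    omega
  | q =>
    obtain ⟨w, h1, h2⟩ := Finset.mem_biUnion.mp h
    have h3 := par_dist_right x h1
    have h4 := par_dist_right x h2
    have h5 := tri (x, y⁻¹) (x, w⁻¹) (x, y'⁻¹)
    show _ ≤ 2
    omega

lemma Es_cost (b : Bool) (n : ℕ) :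
    ∀ t, (dsp (Es b n t).1).natAbs + (dsp (Es b n t).2).natAbs ≤ 3 := by
  unfold Es
  generalize tA b n = t1
  generalize tA b (n - 1) = t2
  revert t1 t2
  decide

lemma adj_dist {v w : V} (h : GG.Adj v w) : Cay.dist v⁻¹ w⁻¹ ≤ 3 := by
  obtain ⟨t, h1, h2⟩ := (mem_Nf v w).mp h
  have a1 := st_dist_left _ v.2⁻¹ h1
  have a2 := st_dist_right _ w.1⁻¹ h2
  have a3 := tri (v.1⁻¹, v.2⁻¹) (w.1⁻¹, v.2⁻¹) (w.1⁻¹, w.2⁻¹)
  have a4 := Es_cost true (lev v) t
  show Cay.dist (v.1⁻¹, v.2⁻¹) (w.1⁻¹, w.2⁻¹) ≤ 3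
  omega

lemma cay_dist_le (v w : V) : Cay.dist v⁻¹ w⁻¹ ≤ 3 * GG.dist v w := by
  obtain ⟨p, hp⟩ := (gg_connected.preconnected v w).exists_walk_length_eq_dist
  rw [← hp]
  clear hp
  induction p with
  | nil => simp
  | cons h p ih =>
    have h1 := adj_dist h
    have h2 := tri _ _ _ |>.trans (Nat.add_le_add h1 ih)
    rw [SimpleGraph.Walk.length_cons]
    omega

lemma ka_le_all (m : Mv) (i : ℕ) : ka m i ≤ 9900 := by
  cases m <;> simp only [ka] <;> (try split_ifs) <;> norm_num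

lemma deg_bound (v : V) : GG.degree v ≤ 6 * (9900 * 9900) := by
  rw [← SimpleGraph.card_neighborFinset_eq_degree, nbr_eq]
  have h : ((Nf v).card : ℝ) ≤ 6 * (9900 * 9900) := by
    rw [card_Nf]
    calc ∑ t : Fin 6, (ka (Es true (lev v) t).1 v.1.norm : ℝ) *
          (ka (Es true (lev v) t).2 v.2.norm : ℝ) ≤ ∑ t : Fin 6, (9900 : ℝ) * 9900 := by
          refine Finset.sum_le_sum fun t _ => ?_
          exact mul_le_mul (by exact_mod_cast ka_le_all _ _) (by exact_mod_cast ka_le_all _ _)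
            (Nat.cast_nonneg _) (by norm_num)
      _ = 6 * (9900 * 9900) := by
          rw [Finset.sum_const, Finset.card_univ, Fintype.card_fin, nsmul_eq_mul]
          norm_num
  exact_mod_cast h

/-- children of an element, seen in the Cayley graph -/
def kids (v : V) : Finset V := (chl v.1⁻¹).image (fun u => ((u⁻¹, v.2) : V))

lemma kids_card (v : V) : 99 ≤ (kids v).card := by
  unfold kids
  rw [Finset.card_image_of_injective, card_chl]
  · simp only [ka]
    split_ifs <;> omega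
  · intro u u' h
    exact inv_injective (congrArg Prod.fst h)

lemma kids_disj {v w u : V} (h1 : u ∈ kids v) (h2 : u ∈ kids w) : v = w := by
  obtain ⟨a, ha, rfl⟩ := Finset.mem_image.mp h1
  obtain ⟨b, hb, hab⟩ := Finset.mem_image.mp h2
  have e1 : b = a := inv_injective (Prod.mk.inj hab).1
  have e2 : w.2 = v.2 := (Prod.mk.inj hab).2
  subst e1
  have e3 := par_unique ((mem_chl_iff _ _).mp ha) ((mem_chl_iff _ _).mp hb)
  exact Prod.ext (inv_injective e3) e2.symm

lemma kids_sub (v : V) : kids v ⊆ SS.image (fun s => v * s) ∪ SS.image (fun s => v * s⁻¹) := by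
  intro u hu
  obtain ⟨a, ha, rfl⟩ := Finset.mem_image.mp hu
  obtain ⟨⟨⟨i, b⟩, rfl⟩, _⟩ := (mem_chl _ _).mp ha
  cases b
  · apply Finset.mem_union_left
    refine Finset.mem_image.mpr ⟨_, mem_SS_left i, ?_⟩
    refine Prod.ext ?_ (mul_one _)
    show v.1 * FreeGroup.of i = (FreeGroup.mk [(i, false)] * v.1⁻¹)⁻¹
    rw [mul_inv_rev, inv_inv, FreeGroup.inv_mk]
    rfl
  · apply Finset.mem_union_right
    refine Finset.mem_image.mpr ⟨_, mem_SS_left i, ?_⟩
    refine Prod.ext ?_ ?_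
    · show v.1 * (FreeGroup.of i)⁻¹ = (FreeGroup.mk [(i, true)] * v.1⁻¹)⁻¹
      rw [mul_inv_rev, inv_inv]
      rfl
    · show v.2 * 1⁻¹ = v.2
      simp

theorem nonamenable (F : Finset V) : (F.card : ℝ) ≤
    (((F.biUnion (fun x => SS.image (fun s => x * s) ∪ SS.image (fun s => x * s⁻¹))) \ F).card : ℝ) := by
  set N := F.biUnion (fun x => SS.image (fun s => x * s) ∪ SS.image (fun s => x * s⁻¹)) with hN
  have h1 : F.biUnion kids ⊆ N := by
    intro u hu
    obtain ⟨v, hv, hu⟩ := Finset.mem_biUnion.mp hu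
    exact Finset.mem_biUnion.mpr ⟨v, hv, kids_sub v hu⟩
  have h2 : F.card * 99 ≤ (F.biUnion kids).card := by
    rw [Finset.card_biUnion]
    · exact Finset.card_nsmul_le_sum F _ 99 (fun v _ => kids_card v)
    · intro v _ w _ hne
      show Disjoint _ _
      rw [Finset.disjoint_left]
      intro u hu hu'
      exact hne (kids_disj hu hu')
  have h3 := Finset.card_le_card h1
  have h4 := Finset.le_card_sdiff F N
  have h5 : F.card ≤ (N \ F).card := by omega
  exact_mod_cast h5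

end Pool.Agent.Helper23.LQ
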